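import Mathlib

/-!
# Numerics for the Set Cover theorem
-/

set_option autoImplicit false

namespace SetCoverMono

open Filter Topology

/-- `C(n, h) ≤ (1 + 1 / k) ^ n * k ^ h`. -/
theorem choose_le (n h k : ℕ) (hk : 0 < k) :
    (n.choose h : ℝ) ≤ (1 + 1 / (k : ℝ)) ^ n * (k : ℝ) ^ h := by
  have hk' : (0 : ℝ) < k := by exact_mod_cast hk
  have h1 : (n.choose h : ℝ) * (1 / (k : ℝ)) ^ h ≤ (1 + 1 / (k : ℝ)) ^ n := by
    rcases le_or_gt h n with hn | hn
    · have h2 : (1 + 1 / (k : ℝ)) ^ n = ∑ m ∈ Finset.range (n + 1),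
          (1 / (k : ℝ)) ^ m * 1 ^ (n - m) * (n.choose m : ℝ) := by
        rw [add_comm (1 : ℝ), add_pow]
      rw [h2]
      have h3 : (n.choose h : ℝ) * (1 / (k : ℝ)) ^ h =
          (1 / (k : ℝ)) ^ h * 1 ^ (n - h) * (n.choose h : ℝ) := by
        rw [one_pow]; ring
      rw [h3]
      refine Finset.single_le_sum (f := fun m => (1 / (k : ℝ)) ^ m * 1 ^ (n - m) *
        (n.choose m : ℝ)) ?_ (Finset.mem_range.2 (by omega))
      intro i _
      positivity
    · rw [Nat.choose_eq_zero_of_lt hn]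
      simp only [Nat.cast_zero, zero_mul]
      positivity
  have h4 : (n.choose h : ℝ) = (n.choose h : ℝ) * (1 / (k : ℝ)) ^ h * (k : ℝ) ^ h := by
    rw [mul_assoc, ← mul_pow, one_div_mul_cancel hk'.ne', one_pow, mul_one]
  rw [h4]
  exact mul_le_mul_of_nonneg_right h1 (by positivity)

/-- `log C(n, n / k) ≤ n (1 + log k) / k`. -/
theorem log_choose_le (n k : ℕ) (hk : 0 < k) :
    Real.log (n.choose (n / k) : ℝ) ≤ n * ((1 + Real.log k) / k) := by
  have hk' : (0 : ℝ) < k := by exact_mod_cast hk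
  have hk1 : (1 : ℝ) ≤ k := by exact_mod_cast hk
  have hlog : 0 ≤ Real.log k := Real.log_nonneg hk1
  have hpos : (0 : ℝ) < (n.choose (n / k) : ℝ) := by
    exact_mod_cast Nat.choose_pos (Nat.div_le_self n k)
  have h1 := Real.log_le_log hpos (choose_le n (n / k) k hk)
  refine h1.trans ?_
  rw [Real.log_mul (by positivity) (by positivity), Real.log_pow, Real.log_pow]
  have h2 : Real.log (1 + 1 / (k : ℝ)) ≤ 1 / k := by
    have := Real.log_le_sub_one_of_pos (show (0 : ℝ) < 1 + 1 / (k : ℝ) by positivity)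
    linarith
  have h3 : ((n / k : ℕ) : ℝ) ≤ n / k := Nat.cast_div_le
  have h4 : (n : ℝ) * Real.log (1 + 1 / (k : ℝ)) ≤ n * (1 / k) :=
    mul_le_mul_of_nonneg_left h2 (by positivity)
  have h5 : ((n / k : ℕ) : ℝ) * Real.log k ≤ n / k * Real.log k :=
    mul_le_mul_of_nonneg_right h3 hlog
  have h6 : (n : ℝ) * ((1 + Real.log k) / k) = n * (1 / k) + n / k * Real.log k := by ring
  rw [h6]
  linarith

theorem tendsto_aux (c : ℝ) : Tendsto (fun k : ℕ => c * ((1 + Real.log k) / k)) atTop (𝓝 0) := by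
  have h1 : Tendsto (fun k : ℕ => (1 : ℝ) / k) atTop (𝓝 0) := tendsto_one_div_atTop_nhds_zero_nat
  have h2 : Tendsto (fun k : ℕ => Real.log k / k) atTop (𝓝 0) := by
    have := Real.isLittleO_log_id_atTop.tendsto_div_nhds_zero
    exact this.comp tendsto_natCast_atTop_atTop
  have h3 := ((h1.add h2).const_mul c)
  rw [add_zero, mul_zero] at h3
  refine h3.congr fun k => ?_
  rw [add_div]

theorem tendsto_aux2 (c : ℝ) : Tendsto (fun n : ℕ => c * (Real.log n / n)) atTop (𝓝 0) := by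
  have h2 : Tendsto (fun k : ℕ => Real.log k / k) atTop (𝓝 0) := by
    have := Real.isLittleO_log_id_atTop.tendsto_div_nhds_zero
    exact this.comp tendsto_natCast_atTop_atTop
  have h3 := h2.const_mul c
  rwa [mul_zero] at h3

/-- The numerical estimate. -/
theorem num_bound (b : ℝ) (hb : b < 2) (hb0 : 0 ≤ b) (c : ℕ) : ∃ η : ℝ, 0 < η ∧ ∃ k₀ : ℕ, 2 ≤ k₀ ∧
    ∀ k ≥ k₀, ∃ n₀ : ℕ, ∀ n ≥ n₀, b ^ n * ((n.choose (n / k) : ℝ) * n) ^ c ≤
      (2 : ℝ) ^ ((1 - η) * (k * (n / k : ℕ) : ℝ)) := by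
  set b' : ℝ := max b 1 with hb'
  have hb'1 : 1 ≤ b' := le_max_right _ _
  have hb'2 : b' < 2 := max_lt hb one_lt_two
  have hb'0 : 0 < b' := by linarith
  have hlog2 : 0 < Real.log 2 := Real.log_pos one_lt_two
  set δ : ℝ := Real.log 2 - Real.log b' with hδ
  have hδ0 : 0 < δ := by
    have := Real.log_lt_log hb'0 hb'2
    rw [hδ]; linarith
  have hδ2 : δ ≤ Real.log 2 := by
    have := Real.log_nonneg hb'1
    rw [hδ]; linarith
  refine ⟨δ / (4 * Real.log 2), by positivity, ?_⟩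
  have hη1 : δ / (4 * Real.log 2) * Real.log 2 = δ / 4 := by
    field_simp
  have hη2 : δ / (4 * Real.log 2) ≤ 1 := by
    rw [div_le_one (by positivity)]
    linarith
  obtain ⟨k₁, hk₁⟩ := eventually_atTop.1
    ((tendsto_order.1 (tendsto_aux c)).2 (δ / 4) (by positivity))
  refine ⟨max k₁ 2, le_max_right _ _, fun k hk => ?_⟩
  have hk1 := hk₁ k ((le_max_left _ _).trans hk)
  have hk2 : 2 ≤ k := (le_max_right _ _).trans hk
  obtain ⟨n₁, hn₁⟩ := eventually_atTop.1
    ((tendsto_order.1 (tendsto_aux2 c)).2 (δ / 8) (by positivity))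
  obtain ⟨n₂, hn₂⟩ := exists_nat_ge (k * Real.log 2 / (δ / 8))
  refine ⟨max (max n₁ n₂) 1, fun n hn => ?_⟩
  have hn1 := hn₁ n ((le_max_left _ _).trans ((le_max_left _ _).trans hn))
  have hn2 : (n₂ : ℝ) ≤ n := by
    exact_mod_cast (le_max_right _ _).trans ((le_max_left _ _).trans hn)
  have hn3 : 1 ≤ n := (le_max_right _ _).trans hn
  have hnR : (0 : ℝ) < n := by exact_mod_cast hn3
  have hC : (0 : ℝ) < (n.choose (n / k) : ℝ) := by
    exact_mod_cast Nat.choose_pos (Nat.div_le_self n k)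
  have hle : b ^ n * ((n.choose (n / k) : ℝ) * n) ^ c ≤
      b' ^ n * ((n.choose (n / k) : ℝ) * n) ^ c := by
    have : b ≤ b' := le_max_left _ _
    gcongr
  refine hle.trans ?_
  have hL : 0 < b' ^ n * ((n.choose (n / k) : ℝ) * n) ^ c := by positivity
  rw [← Real.log_le_log_iff hL (Real.rpow_pos_of_pos two_pos _), Real.log_rpow two_pos,
    Real.log_mul (by positivity) (by positivity), Real.log_pow, Real.log_pow,
    Real.log_mul hC.ne' hnR.ne']
  have e1 : (c : ℝ) * Real.log (n.choose (n / k) : ℝ) ≤ n * (δ / 4) := by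
    have h1 := mul_le_mul_of_nonneg_left (log_choose_le n k (by omega)) (Nat.cast_nonneg (α := ℝ) c)
    refine h1.trans ?_
    have h2 : (c : ℝ) * (n * ((1 + Real.log k) / k)) = n * (c * ((1 + Real.log k) / k)) := by ring
    rw [h2]
    exact mul_le_mul_of_nonneg_left hk1.le hnR.le
  have e2 : (c : ℝ) * Real.log n ≤ n * (δ / 8) := by
    have h2 : (c : ℝ) * Real.log n = n * (c * (Real.log n / n)) := by
      field_simp
    rw [h2]
    exact mul_le_mul_of_nonneg_left hn1.le hnR.le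
  have e3 : (k : ℝ) * Real.log 2 ≤ n * (δ / 8) := by
    have h1 := hn₂.trans hn2
    rwa [div_le_iff₀ (by positivity)] at h1
  have e4 : (n : ℝ) - k ≤ k * (n / k : ℕ) := by
    have h1 : n < k * (n / k) + k := by
      have h2 := Nat.div_add_mod n k
      have h3 := Nat.mod_lt n (show 0 < k by omega)
      omega
    have h2 : (n : ℝ) < k * (n / k : ℕ) + k := by exact_mod_cast h1
    linarith
  have e5 : (1 - δ / (4 * Real.log 2)) * ((n : ℝ) - k) * Real.log 2 ≤
      (1 - δ / (4 * Real.log 2)) * (k * (n / k : ℕ) : ℝ) * Real.log 2 := by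
    refine mul_le_mul_of_nonneg_right (mul_le_mul_of_nonneg_left e4 ?_) hlog2.le
    linarith
  refine le_trans ?_ e5
  have e6 : (1 - δ / (4 * Real.log 2)) * ((n : ℝ) - k) * Real.log 2 =
      n * Real.log 2 - n * (δ / 4) - (k * Real.log 2 - k * (δ / 4)) := by
    rw [← hη1]; ring
  rw [e6]
  have e7 : (n : ℝ) * Real.log b' = n * Real.log 2 - n * δ := by rw [hδ]; ring
  rw [e7]
  have hkδ : 0 ≤ (k : ℝ) * (δ / 4) := by positivity
  nlinarith

end SetCoverMono
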