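import Pool.Agent.Lib.MP_8fffab_lc_MC.Out

/-!
# The end of the proof: the approximator of the output is wrong somewhere
-/

open Finset

namespace SetCoverMono

/-- The standard balanced colouring. -/
def col (k h : ℕ) : Fin (k * h) → Fin k := fun v => (finProdFinEquiv.symm v).1

theorem card_col (k h : ℕ) (j : Fin k) :
    (univ.filter fun v : Fin (k * h) => col k h v = j).card = h := by
  classical
  have h1 : (univ.filter fun v : Fin (k * h) => col k h v = j).card =
      (univ.filter fun x : Fin k × Fin h => x.1 = j).card := by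
    apply Finset.card_bij (fun v _ => finProdFinEquiv.symm v)
    · intro v hv
      exact mem_filter.2 ⟨mem_univ _, (mem_filter.1 hv).2⟩
    · intro a _ b _ hab
      exact finProdFinEquiv.symm.injective hab
    · intro x hx
      refine ⟨finProdFinEquiv x, ?_, by simp⟩
      refine mem_filter.2 ⟨mem_univ _, ?_⟩
      change (finProdFinEquiv.symm (finProdFinEquiv x)).1 = j
      rw [Equiv.symm_apply_apply]
      exact (mem_filter.1 hx).2
  rw [h1]
  have h2 : (univ.filter fun x : Fin k × Fin h => x.1 = j) = {j} ×ˢ univ := by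
    ext ⟨x, z⟩
    simp [eq_comm]
  rw [h2, card_product, card_singleton, one_mul, card_univ, Fintype.card_fin]

theorem card_col_perm (k h : ℕ) (π : Equiv.Perm (Fin (k * h))) (j : Fin k) :
    (univ.filter fun v : Fin (k * h) => (col k h ∘ π) v = j).card = h := by
  classical
  refine Eq.trans ?_ (card_col k h j)
  apply Finset.card_bij (fun v _ => π v)
  · intro v hv
    exact mem_filter.2 ⟨mem_univ _, (mem_filter.1 hv).2⟩
  · intro a _ b _ hab
    exact π.injective hab
  · intro v hv
    refine ⟨π.symm v, ?_, by simp⟩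
    refine mem_filter.2 ⟨mem_univ _, ?_⟩
    change col k h (π (π.symm v)) = j
    rw [Equiv.apply_symm_apply]
    exact (mem_filter.1 hv).2

theorem negSat_of_blocks {n k p : ℕ} {y : Fin n → Fin k} {b : Tm n} (hb : PosSat y b)
    {f : Fin n → ZMod p} (hf : ∀ j, ∑ v ∈ univ.filter (fun v => y v = j), f v = 0) :
    NegSat f b := by
  classical
  intro w hw
  obtain ⟨c, rfl⟩ := exists_comp hb hw
  rw [dotProduct, ← Finset.sum_fiberwise univ y]
  refine Finset.sum_eq_zero fun j _ => ?_
  calc ∑ v ∈ univ.filter (fun v => y v = j), f v * (c ∘ y) v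
      = ∑ v ∈ univ.filter (fun v => y v = j), f v * c j := by
        refine Finset.sum_congr rfl fun v hv => ?_
        rw [Function.comp_apply, (mem_filter.1 hv).2]
    _ = 0 := by rw [← Finset.sum_mul, hf j, zero_mul]

/-- Many vectors satisfy a term and have nonzero sum. -/
theorem many_neg {n k p : ℕ} [Fact p.Prime] {y : Fin n → Fin k} {b : Tm n} (hb : PosSat y b)
    (hs : (supp b).card < n) (F : Finset (Fin n → ZMod p))
    (hF : ∀ f : Fin n → ZMod p, NegSat f b → ∑ v, f v ≠ 0 → f ∈ F) :
    p ^ n ≤ p ^ k * F.card := by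
  classical
  -- a point outside
  obtain ⟨v₀, hv₀⟩ : ∃ v₀, v₀ ∉ supp b := by
    by_contra h
    push Not at h
    have : supp b = univ := Finset.eq_univ_iff_forall.2 h
    rw [this, card_univ, Fintype.card_fin] at hs
    exact lt_irrefl _ hs
  rw [mem_supp, not_not] at hv₀
  -- the linear map of the block sums
  let L : (Fin n → ZMod p) →ₗ[ZMod p] (Fin k → ZMod p) :=
    { toFun := fun f j => ∑ v ∈ univ.filter (fun v => y v = j), f v
      map_add' := by
        intro f g
        funext j
        simp [Finset.sum_add_distrib]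
      map_smul' := by
        intro c f
        funext j
        simp [Finset.mul_sum] }
  have hcard : p ^ n ≤ p ^ k * Nat.card (LinearMap.ker L) := by
    have h1 := LinearMap.finrank_range_add_finrank_ker L
    have h2 : Module.finrank (ZMod p) (LinearMap.range L) ≤ k := by
      calc _ ≤ Module.finrank (ZMod p) (Fin k → ZMod p) := Submodule.finrank_le _
        _ = k := by simp
    rw [Module.finrank_pi, Fintype.card_fin] at h1
    have h3 : Nat.card (LinearMap.ker L) =
        p ^ Module.finrank (ZMod p) (LinearMap.ker L) := by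
      have := Module.card_eq_pow_finrank (K := ZMod p) (V := LinearMap.ker L)
      rw [Nat.card_eq_fintype_card, this, ZMod.card]
    rw [h3, ← pow_add]
    exact Nat.pow_le_pow_right (Fact.out : p.Prime).pos (by omega)
  have hker : Nat.card (LinearMap.ker L) ≤ F.card := by
    rw [Nat.card_eq_fintype_card]
    have hmap : ∀ f : LinearMap.ker L, (f : Fin n → ZMod p) + Pi.single v₀ 1 ∈ F := by
      rintro ⟨f, hf⟩
      have hf0 : ∀ j, ∑ v ∈ univ.filter (fun v => y v = j), f v = 0 := fun j =>
        congrFun (LinearMap.mem_ker.1 hf) j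
      apply hF
      · intro w hw
        change (f + Pi.single v₀ 1) ⬝ᵥ w = 0
        rw [add_dotProduct, negSat_of_blocks hb hf0 w hw, zero_add, single_dotProduct, one_mul]
        exact hw.2 v₀ hv₀
      · have h4 : ∑ v, f v = 0 := by
          rw [← Finset.sum_fiberwise univ y]
          exact Finset.sum_eq_zero fun j _ => hf0 j
        have h5 : ∑ v, (f v + (Pi.single v₀ (1 : ZMod p) : Fin n → ZMod p) v) = 1 := by
          rw [Finset.sum_add_distrib, h4, zero_add]
          simp
        change ∑ v, (f v + (Pi.single v₀ (1 : ZMod p) : Fin n → ZMod p) v) ≠ 0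
        rw [h5]
        exact one_ne_zero
    have hinj : Function.Injective fun f : LinearMap.ker L =>
        (⟨(f : Fin n → ZMod p) + Pi.single v₀ 1, hmap f⟩ : F) := by
      intro f g hfg
      have := congrArg Subtype.val hfg
      exact Subtype.ext (add_right_cancel this)
    have := Fintype.card_le_of_injective _ hinj
    simpa using this
  exact hcard.trans (Nat.mul_le_mul_left _ hker)

/-- The lower bound, with all parameters. -/
theorem core_nat {p k h t G κ : ℕ} [Fact p.Prime] (hG : G < 2 * t) (h1 : OneDim p k t G)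
    (hκ : 0 < κ) (hk : 2 ≤ k) (hh : 0 < h) {ι : Type}
    {a : (Finset (Fin (k * h)) → Prop) → ι → Prop} (ha : IsLit (k * h) h a)
    (C : Circuit ι) {o s : ℕ} (ho : o < s)
    (hpos : ∀ π : Equiv.Perm (Fin (k * h)), C.val (a (classes (col k h ∘ π))) o)
    (hneg : ∀ f : Fin (k * h) → ZMod p, ∑ v, f v ≠ 0 → ¬ C.val (a (zeros f)) o) :
    2 ^ (k * h) ≤ C.numAnd s * (κ ^ k * κ ^ k * (3 ^ k * (k * h + 1))) ∨
      κ ^ G ≤ C.numAnd s * (2 * ((k + 1) ^ (k * h + 1) * p ^ (k * (2 * t + 2)))) := by
  classical
  obtain ⟨A, Bp, Bn, hA, hBp, hBn, hp', hn'⟩ := approx_out hG h1 hκ (col k h)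
    (show 2 * h ≤ k * h by gcongr) ha C ho
  by_cases hall : ∃ π, π ∉ Bp
  · obtain ⟨π, hπ⟩ := hall
    right
    rcases hp' π (hpos π) with h2 | ⟨b, hb, hbπ⟩
    · exact absurd h2 hπ
    have hbT := (mem_terms.1 (hA hb)).2
    have hkh : 0 < k * h := by positivity
    have h3 := many_neg (p := p) hbπ (by omega) Bn (fun f hf hfs => by
      rcases hn' f ⟨b, hb, hf⟩ with h4 | h4
      · exact h4
      · exact absurd h4 (hneg f hfs))
    have hp0 : 0 < p := (Fact.out : p.Prime).pos
    have h5 : p ^ (k * h) * κ ^ G ≤ p ^ (k * h) *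
        (C.numAnd s * (2 * ((k + 1) ^ (k * h + 1) * p ^ (k * (2 * t + 2))))) := by
      calc p ^ (k * h) * κ ^ G ≤ p ^ k * Bn.card * κ ^ G := Nat.mul_le_mul_right _ h3
        _ = p ^ k * (κ ^ G * Bn.card) := by ring
        _ ≤ p ^ k * (C.numAnd s *
              (2 * ((k + 1) ^ (k * h + 1) * p ^ (k * h + k * (2 * t + 1))))) :=
            Nat.mul_le_mul_left _ hBn
        _ = _ := by
            have : p ^ k * p ^ (k * h + k * (2 * t + 1)) =
                p ^ (k * h) * p ^ (k * (2 * t + 2)) := by
              rw [← pow_add, ← pow_add]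
              congr 1
              ring
            calc _ = C.numAnd s * (2 * ((k + 1) ^ (k * h + 1) *
                  (p ^ k * p ^ (k * h + k * (2 * t + 1))))) := by ring
              _ = _ := by rw [this]; ring
    exact Nat.le_of_mul_le_mul_left h5 (Nat.pow_pos hp0)
  · left
    push Not at hall
    have h2 : Bp = univ := Finset.eq_univ_iff_forall.2 hall
    rw [h2, card_univ, Fintype.card_perm, Fintype.card_fin] at hBp
    have h3 : 0 < (k * h).factorial := Nat.factorial_pos _
    have h4 : 2 ^ (k * h) * (k * h).factorial ≤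
        C.numAnd s * (κ ^ k * κ ^ k * (3 ^ k * (k * h + 1))) * (k * h).factorial := by
      calc _ ≤ _ := hBp
        _ = _ := by ring
    exact Nat.le_of_mul_le_mul_right h4 h3

end SetCoverMono
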