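import Pool.Agent.Lib.MP_8fffab_lc_MC.Step

/-!
# Approximation of the output of a monotone circuit
-/

open Finset

namespace SetCoverMono

/-- The family of the colour classes of `y`. -/
def classes {n k : ℕ} (y : Fin n → Fin k) (A : Finset (Fin n)) : Prop :=
  ∃ j, ∀ v, v ∈ A ↔ y v = j

/-- The family of the sets with sum zero. -/
def zeros {n p : ℕ} (f : Fin n → ZMod p) (A : Finset (Fin n)) : Prop := ∑ v ∈ A, f v = 0

/-- The term with one set. -/
def single {n : ℕ} (A : Finset (Fin n)) : Tm n :=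
  Setoid.ker fun x : Option (Fin n) => match x with
    | none => False
    | some v => v ∈ A

theorem supp_single {n : ℕ} (A : Finset (Fin n)) : supp (single A) = A := by
  ext v
  rw [mem_supp]
  change ¬ ((v ∈ A) = False) ↔ _
  simp

theorem posSat_single {n k : ℕ} {y : Fin n → Fin k} {A : Finset (Fin n)} (h : classes y A) :
    PosSat y (single A) := by
  obtain ⟨j, hj⟩ := h
  intro u v huv
  change (u ∈ A) = (v ∈ A)
  rw [eq_iff_iff, hj, hj, huv]

theorem zeros_of_negSat {n p : ℕ} {f : Fin n → ZMod p} {A : Finset (Fin n)}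
    (h : NegSat f (single A)) : zeros f A := by
  classical
  have h1 : (fun v => if v ∈ A then (1 : ZMod p) else 0) ∈ Vs p (single A) := by
    constructor
    · intro u v huv
      change (u ∈ A) = (v ∈ A) at huv
      simp only [huv]
    · intro u hu
      change (u ∈ A) = False at hu
      simp [hu]
  have h2 := h _ h1
  unfold zeros
  rw [← h2, dotProduct]
  simp [Finset.sum_ite_mem]

/-- Inputs: `a x i` is constant or says that some set of size `h` belongs to the family `x`. -/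
def IsLit (n h : ℕ) {ι : Type} (a : (Finset (Fin n) → Prop) → ι → Prop) : Prop :=
  ∀ i, (∀ x, a x i) ∨ (∀ x, ¬ a x i) ∨ ∃ A : Finset (Fin n), A.card = h ∧ ∀ x, a x i ↔ x A

theorem approx_out {p n k h t G κ : ℕ} [Fact p.Prime] (hG : G < 2 * t) (h1 : OneDim p k t G)
    (hκ : 0 < κ) (y₀ : Fin n → Fin k) (hh : 2 * h ≤ n) {ι : Type}
    {a : (Finset (Fin n) → Prop) → ι → Prop} (ha : IsLit n h a) (C : Circuit ι) {o s : ℕ}
    (ho : o < s) :
    ∃ (A : Finset (Tm n)) (Bp : Finset (Equiv.Perm (Fin n))) (Bn : Finset (Fin n → ZMod p)),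
      A ⊆ terms y₀ ∧
      2 ^ n * Bp.card ≤ C.numAnd s * (κ ^ k * κ ^ k * (3 ^ k * (n + 1) * n.factorial)) ∧
      κ ^ G * Bn.card ≤ C.numAnd s * (2 * ((k + 1) ^ (n + 1) * p ^ (n + k * (2 * t + 1)))) ∧
      (∀ π : Equiv.Perm (Fin n), C.val (a (classes (y₀ ∘ π))) o →
        π ∈ Bp ∨ ∃ b ∈ A, PosSat (y₀ ∘ π) b) ∧
      ∀ f : Fin n → ZMod p, (∃ b ∈ A, NegSat f b) → f ∈ Bn ∨ C.val (a (zeros f)) o := by
  classical
  have hand : ∀ A₁ A₂ : Finset (Tm n), A₁ ⊆ terms y₀ → A₂ ⊆ terms y₀ → ∃ A, A ⊆ terms y₀ ∧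
      (∃ B : Finset (Equiv.Perm (Fin n)),
        2 ^ n * κ ^ G * B.card ≤ κ ^ G * (κ ^ k * κ ^ k * (3 ^ k * (n + 1) * n.factorial)) ∧
        ∀ π : Equiv.Perm (Fin n), (∃ b ∈ A₁, PosSat (y₀ ∘ π) b) →
          (∃ b ∈ A₂, PosSat (y₀ ∘ π) b) → π ∈ B ∨ ∃ b ∈ A, PosSat (y₀ ∘ π) b) ∧
      ∃ F : Finset (Fin n → ZMod p), 2 ^ n * κ ^ G * F.card ≤
          2 ^ n * (2 * ((k + 1) ^ (n + 1) * p ^ (n + k * (2 * t + 1)))) ∧
        ∀ f, (∃ b ∈ A, NegSat f b) →
          f ∈ F ∨ ((∃ b ∈ A₁, NegSat f b) ∧ ∃ b ∈ A₂, NegSat f b) := by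
    intro A₁ A₂ hA₁ hA₂
    obtain ⟨A, hA, ⟨B, hB, hB'⟩, F, hF, hF'⟩ := and_step hG h1 hκ y₀ hA₁ hA₂
    refine ⟨A, hA, ⟨B, ?_, hB'⟩, F, ?_, hF'⟩
    · calc 2 ^ n * κ ^ G * B.card = κ ^ G * (2 ^ n * B.card) := by ring
        _ ≤ _ := Nat.mul_le_mul_left _ hB
    · calc 2 ^ n * κ ^ G * F.card = 2 ^ n * (κ ^ G * F.card) := by ring
        _ ≤ _ := Nat.mul_le_mul_left _ hF
  obtain ⟨A, Bp, Bn, hBp, hBn, hA⟩ := approx
    (P := fun (π : Equiv.Perm (Fin n)) i => a (classes (y₀ ∘ π)) i)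
    (N := fun (f : Fin n → ZMod p) i => a (zeros f) i)
    (ps := fun (π : Equiv.Perm (Fin n)) b => PosSat (y₀ ∘ π) b)
    (ns := fun (f : Fin n → ZMod p) b => NegSat f b)
    (good := fun A => A ⊆ terms y₀) (by simp)
    (fun A B hA hB => ⟨A ∪ B, union_subset hA hB, fun b => mem_union⟩)
    (a := 2 ^ n * κ ^ G) (b := κ ^ G * (κ ^ k * κ ^ k * (3 ^ k * (n + 1) * n.factorial)))
    (c := 2 ^ n * (2 * ((k + 1) ^ (n + 1) * p ^ (n + k * (2 * t + 1)))))
    (by
      intro i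
      rcases ha i with h | h | ⟨S, hS, h⟩
      · refine ⟨{⊤}, ?_, fun π _ => ⟨⊤, by simp, fun _ _ _ => trivial⟩, fun f _ => h _⟩
        rw [singleton_subset_iff, mem_terms]
        refine ⟨⟨1, fun _ _ _ => trivial⟩, ?_⟩
        have : supp (⊤ : Tm n) = ∅ := by
          ext v
          rw [mem_supp]
          simp only [notMem_empty, iff_false, not_not]
          trivial
        rw [this]
        simp
      · exact ⟨∅, by simp, fun π hπ => absurd hπ (h _), fun f hf => by simp at hf⟩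
      · by_cases hT : single S ∈ terms y₀
        · refine ⟨{single S}, by simpa using hT, fun π hπ => ?_, fun f hf => ?_⟩
          · exact ⟨single S, by simp, posSat_single ((h _).1 hπ)⟩
          · obtain ⟨b, hb, hf⟩ := hf
            rw [mem_singleton] at hb
            subst hb
            exact (h _).2 (zeros_of_negSat hf)
        · refine ⟨∅, by simp, fun π hπ => ?_, fun f hf => by simp at hf⟩
          exfalso
          apply hT
          rw [mem_terms, supp_single, hS]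
          exact ⟨⟨π, posSat_single ((h _).1 hπ)⟩, hh⟩)
    (by
      refine ⟨{⊤}, ?_, fun π => ⟨⊤, by simp, fun _ _ _ => trivial⟩⟩
      rw [singleton_subset_iff, mem_terms]
      refine ⟨⟨1, fun _ _ _ => trivial⟩, ?_⟩
      have : supp (⊤ : Tm n) = ∅ := by
        ext v
        rw [mem_supp]
        simp only [notMem_empty, iff_false, not_not]
        trivial
      rw [this]
      simp)
    hand C s
  have e1 : 0 < κ ^ G := Nat.pow_pos hκ
  have e2 : 0 < 2 ^ n := Nat.pow_pos (by norm_num)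
  have hval : ∀ x, C.val (a x) o = C.val (fun i => a x i) o := fun _ => rfl
  refine ⟨A o, Bp, Bn, (hA o ho).1, ?_, ?_, (hA o ho).2.1, (hA o ho).2.2⟩
  · have h3 : κ ^ G * (2 ^ n * Bp.card) ≤
        κ ^ G * (C.numAnd s * (κ ^ k * κ ^ k * (3 ^ k * (n + 1) * n.factorial))) := by
      calc _ = 2 ^ n * κ ^ G * Bp.card := by ring
        _ ≤ _ := hBp
        _ = _ := by ring
    exact Nat.le_of_mul_le_mul_left h3 e1
  · have h3 : 2 ^ n * (κ ^ G * Bn.card) ≤
        2 ^ n * (C.numAnd s * (2 * ((k + 1) ^ (n + 1) * p ^ (n + k * (2 * t + 1))))) := by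
      calc _ = 2 ^ n * κ ^ G * Bn.card := by ring
        _ ≤ _ := hBn
        _ = _ := by ring
    exact Nat.le_of_mul_le_mul_left h3 e2

end SetCoverMono
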