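import Pool.Agent.Lib.MP_8fffab_lc_MC.Defs

/-!
# Approximation of the gates of a monotone circuit, abstract form
-/

open Finset

namespace SetCoverMono

theorem numAnd_succ {ι : Type} (C : Circuit ι) (s : ℕ) :
    C.numAnd (s + 1) = C.numAnd s + if (C s).isAnd = true then 1 else 0 := by
  unfold Circuit.numAnd
  rw [Finset.range_add_one, Finset.filter_insert]
  by_cases h : (C s).isAnd = true
  · rw [if_pos h, if_pos h, Finset.card_insert_of_notMem (by simp)]
  · rw [if_neg h, if_neg h]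
    rfl

/-- `𝕋` is the type of terms, `P` and `N` are the positive and negative inputs, `ps` and `ns` say
that an input satisfies a term. Only AND gates cause errors. -/
theorem approx {ι Pt Φ 𝕋 : Type}
    (P : Pt → ι → Prop) (N : Φ → ι → Prop) (ps : Pt → 𝕋 → Prop) (ns : Φ → 𝕋 → Prop)
    (good : Finset 𝕋 → Prop) (h0 : good ∅) (hU : ∀ A B, good A → good B → ∃ D, good D ∧
      ∀ b, b ∈ D ↔ b ∈ A ∨ b ∈ B)
    {a b c : ℕ}
    (hin : ∀ i, ∃ A, good A ∧ (∀ π, P π i → ∃ b ∈ A, ps π b) ∧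
      ∀ f, (∃ b ∈ A, ns f b) → N f i)
    (htrue : ∃ A, good A ∧ ∀ π, ∃ b ∈ A, ps π b)
    (hand : ∀ A₁ A₂, good A₁ → good A₂ → ∃ A, good A ∧
      (∃ B : Finset Pt, a * B.card ≤ b ∧
        ∀ π, (∃ b ∈ A₁, ps π b) → (∃ b ∈ A₂, ps π b) → π ∈ B ∨ ∃ b ∈ A, ps π b) ∧
      ∃ B : Finset Φ, a * B.card ≤ c ∧
        ∀ f, (∃ b ∈ A, ns f b) → f ∈ B ∨ ((∃ b ∈ A₁, ns f b) ∧ ∃ b ∈ A₂, ns f b))
    (C : Circuit ι) (s : ℕ) :
    ∃ (A : ℕ → Finset 𝕋) (Bp : Finset Pt) (Bn : Finset Φ),
      a * Bp.card ≤ C.numAnd s * b ∧ a * Bn.card ≤ C.numAnd s * c ∧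
      ∀ i < s, good (A i) ∧ (∀ π, C.val (P π) i → π ∈ Bp ∨ ∃ b ∈ A i, ps π b) ∧
        ∀ f, (∃ b ∈ A i, ns f b) → f ∈ Bn ∨ C.val (N f) i := by
  classical
  induction s with
  | zero => exact ⟨fun _ => ∅, ∅, ∅, by simp, by simp, fun i hi => absurd hi (Nat.not_lt_zero i)⟩
  | succ s ih =>
    obtain ⟨A, Bp, Bn, hBp, hBn, hA⟩ := ih
    -- it suffices to treat the new gate
    suffices h : ∃ (D : Finset 𝕋) (B : Finset Pt) (B' : Finset Φ),
        a * B.card ≤ (if (C s).isAnd = true then 1 else 0) * b ∧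
        a * B'.card ≤ (if (C s).isAnd = true then 1 else 0) * c ∧ good D ∧
        (∀ π, C.val (P π) s → π ∈ Bp ∪ B ∨ ∃ b ∈ D, ps π b) ∧
        ∀ f, (∃ b ∈ D, ns f b) → f ∈ Bn ∪ B' ∨ C.val (N f) s by
      obtain ⟨D, B, B', hB, hB', hD, hD1, hD2⟩ := h
      refine ⟨Function.update A s D, Bp ∪ B, Bn ∪ B', ?_, ?_, ?_⟩
      · rw [numAnd_succ, add_mul]
        calc a * (Bp ∪ B).card ≤ a * (Bp.card + B.card) :=
              Nat.mul_le_mul_left _ (card_union_le _ _)
          _ = a * Bp.card + a * B.card := by ring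
          _ ≤ _ := Nat.add_le_add hBp hB
      · rw [numAnd_succ, add_mul]
        calc a * (Bn ∪ B').card ≤ a * (Bn.card + B'.card) :=
              Nat.mul_le_mul_left _ (card_union_le _ _)
          _ = a * Bn.card + a * B'.card := by ring
          _ ≤ _ := Nat.add_le_add hBn hB'
      · intro i hi
        rcases Nat.lt_succ_iff_lt_or_eq.1 hi with h | rfl
        · rw [Function.update_of_ne h.ne]
          obtain ⟨h1, h2, h3⟩ := hA i h
          refine ⟨h1, fun π hπ => ?_, fun f hf => ?_⟩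
          · rcases h2 π hπ with h | h
            · exact Or.inl (mem_union_left _ h)
            · exact Or.inr h
          · rcases h3 f hf with h | h
            · exact Or.inl (mem_union_left _ h)
            · exact Or.inr h
        · rw [Function.update_self]
          exact ⟨hD, hD1, hD2⟩
    -- the four kinds of gates
    rcases hg : C s with v | β | ⟨x, y⟩ | S
    · obtain ⟨D, hD, hD1, hD2⟩ := hin v
      refine ⟨D, ∅, ∅, by simp, by simp, hD, fun π hπ => ?_, fun f hf => ?_⟩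
      · rw [Circuit.val, hg] at hπ
        exact Or.inr (hD1 π hπ)
      · rw [Circuit.val, hg]
        exact Or.inr (hD2 f hf)
    · rcases β with _ | _
      · refine ⟨∅, ∅, ∅, by simp, by simp, h0, fun π hπ => ?_, fun f hf => ?_⟩
        · rw [Circuit.val, hg] at hπ
          simp at hπ
        · simp at hf
      · obtain ⟨D, hD, hD1⟩ := htrue
        refine ⟨D, ∅, ∅, by simp, by simp, hD, fun π hπ => Or.inr (hD1 π), fun f hf => ?_⟩
        rw [Circuit.val, hg]
        exact Or.inr rfl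
    · obtain ⟨hx1, hx2, hx3⟩ := hA x x.2
      obtain ⟨hy1, hy2, hy3⟩ := hA y y.2
      obtain ⟨D, hD, ⟨B, hB, hB1⟩, B', hB', hB1'⟩ := hand _ _ hx1 hy1
      refine ⟨D, B, B', by simpa [Gate.isAnd] using hB, by simpa [Gate.isAnd] using hB', hD,
        fun π hπ => ?_, fun f hf => ?_⟩
      · rw [Circuit.val, hg] at hπ
        rcases hx2 π hπ.1 with h | h
        · exact Or.inl (mem_union_left _ h)
        rcases hy2 π hπ.2 with h' | h'
        · exact Or.inl (mem_union_left _ h')
        rcases hB1 π h h' with h'' | h''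
        · exact Or.inl (mem_union_right _ h'')
        · exact Or.inr h''
      · rw [Circuit.val, hg]
        rcases hB1' f hf with h | ⟨h, h'⟩
        · exact Or.inl (mem_union_right _ h)
        rcases hx3 f h with h1 | h1
        · exact Or.inl (mem_union_left _ h1)
        rcases hy3 f h' with h2 | h2
        · exact Or.inl (mem_union_left _ h2)
        exact Or.inr ⟨h1, h2⟩
    · -- union
      have hun : ∀ S : Finset (Fin s), ∃ D, good D ∧ ∀ b, b ∈ D ↔ ∃ i ∈ S, b ∈ A i := by
        intro S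
        induction S using Finset.induction_on with
        | empty => exact ⟨∅, h0, by simp⟩
        | insert i S hi ihS =>
          obtain ⟨D, hD, hD'⟩ := ihS
          obtain ⟨D', h1, h2⟩ := hU _ _ (hA i i.2).1 hD
          refine ⟨D', h1, fun b => ?_⟩
          rw [h2, hD']
          simp
      obtain ⟨D, hD, hD'⟩ := hun S
      refine ⟨D, ∅, ∅, by simp, by simp, hD, fun π hπ => ?_, fun f hf => ?_⟩
      · rw [Circuit.val, hg] at hπ
        obtain ⟨i, hi, hπ⟩ := hπ
        rcases (hA i i.2).2.1 π hπ with h | ⟨b, hb, h⟩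
        · exact Or.inl (mem_union_left _ h)
        · exact Or.inr ⟨b, (hD' b).2 ⟨i, hi, hb⟩, h⟩
      · obtain ⟨b, hb, hfb⟩ := hf
        obtain ⟨i, hi, hbi⟩ := (hD' b).1 hb
        rw [Circuit.val, hg]
        rcases (hA i i.2).2.2 f ⟨b, hbi, hfb⟩ with h | h
        · exact Or.inl (mem_union_left _ h)
        · exact Or.inr ⟨i, hi, h⟩

end SetCoverMono
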