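import Pool.Agent.Lib.MP_8fffab_lc_MC.Defs

/-! Partitions of `Fin (k * h)` into members of a family of `h`-subsets as a restriction of Set
Cover with `n.choose h` sets. -/

open Finset

namespace SetCoverMono

/-- The colour classes of `y` are `h`-sets satisfying `x`. -/
def IsPart {V : Type} {k : ℕ} (h : ℕ) (x : Finset V → Prop) (y : V → Fin k) : Prop :=
  ∀ j, ∃ A : Finset V, x A ∧ A.card = h ∧ ∀ v, v ∈ A ↔ y v = j

theorem embed_iff {n k h : ℕ} (hk : 0 < k) (hh : 0 < h) (hn : k * h ≤ n) :
    ∃ Γ : (Finset (Fin (k * h)) → Prop) → Fin (n.choose h) → Fin n → Prop,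
      (∀ i v, (∀ x, ¬ Γ x i v) ∨ ∃ A : Finset (Fin (k * h)), A.card = h ∧ ∀ x, Γ x i v ↔ x A) ∧
      ∀ x, HasCover k (Γ x) ↔ ∃ y : Fin (k * h) → Fin k, IsPart h x y := by
  classical
  have hcard : Fintype.card {H : Finset (Fin n) // H.card = h} = n.choose h := by
    rw [Fintype.card_finset_len, Fintype.card_fin]
  obtain ⟨e⟩ : Nonempty ({H : Finset (Fin n) // H.card = h} ≃ Fin (n.choose h)) :=
    ⟨Fintype.equivFinOfCardEq hcard⟩
  obtain ⟨P, hP⟩ : ∃ P : Fin (n.choose h) → Finset (Fin (k * h)),
      P = fun i => univ.filter fun v => Fin.castLE hn v ∈ (e.symm i).1 := ⟨_, rfl⟩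
  have hmem : ∀ i v, v ∈ P i ↔ Fin.castLE hn v ∈ (e.symm i).1 := by
    intro i v
    simp [hP]
  refine ⟨fun x i v => (P i).card = h ∧ x (P i) ∧ ∀ v', Fin.castLE hn v' = v → v' ∈ P i, ?_, ?_⟩
  · intro i v
    by_cases hc : (P i).card = h ∧ ∀ v', Fin.castLE hn v' = v → v' ∈ P i
    · right
      exact ⟨P i, hc.1, fun x => ⟨fun hx => hx.2.1, fun hx => ⟨hc.1, hx, hc.2⟩⟩⟩
    · left
      exact fun x hx => hc ⟨hx.1, hx.2.2⟩
  · intro x
    constructor
    · rintro ⟨I, hI, hcov⟩
      have hcov' : ∀ v : Fin (k * h), ∃ i, i ∈ I ∧ (P i).card = h ∧ x (P i) ∧ v ∈ P i := by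
        intro v
        obtain ⟨i, hi, h1, h2, h3⟩ := hcov (Fin.castLE hn v)
        exact ⟨i, hi, h1, h2, h3 v rfl⟩
      choose g hg using hcov'
      have hfib : ∀ i ∈ I, (univ.filter fun v => g v = i).card ≤ h := by
        intro i _
        by_cases hne : ∃ v, g v = i
        · obtain ⟨v, hv⟩ := hne
          have h1 := (hg v).2.1
          rw [hv] at h1
          refine le_trans (card_le_card ?_) h1.le
          intro w hw
          rw [mem_filter] at hw
          rw [← hw.2]
          exact (hg w).2.2.2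
        · rw [filter_false_of_mem (fun v _ hv => hne ⟨v, hv⟩)]
          simp
      have hsum : ∑ i ∈ I, (univ.filter fun v => g v = i).card = k * h := by
        rw [← card_eq_sum_card_fiberwise (f := g) (s := univ) (t := I)
          (fun v _ => (hg v).1)]
        simp
      have hle : ∑ i ∈ I, (univ.filter fun v => g v = i).card ≤ I.card * h := by
        calc _ ≤ ∑ i ∈ I, h := sum_le_sum hfib
          _ = _ := by rw [sum_const, smul_eq_mul]
      have hIk : I.card = k := by
        apply le_antisymm hI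
        have h2 : k * h ≤ I.card * h := by rw [← hsum]; exact hle
        exact Nat.le_of_mul_le_mul_right h2 hh
      have heq : ∀ i ∈ I, (univ.filter fun v => g v = i).card = h := by
        have h3 : ∑ i ∈ I, (univ.filter fun v => g v = i).card = ∑ i ∈ I, h := by
          rw [hsum, sum_const, smul_eq_mul, hIk]
        exact (sum_eq_sum_iff_of_le hfib).1 h3
      have hfP : ∀ i ∈ I, x (P i) ∧ (P i).card = h ∧ ∀ v, v ∈ P i ↔ g v = i := by
        intro i hi
        have h4 := heq i hi
        have hne : (univ.filter fun v => g v = i).Nonempty := by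
          rw [← card_pos, h4]; exact hh
        obtain ⟨v, hv⟩ := hne
        rw [mem_filter] at hv
        have h1 := (hg v).2
        rw [hv.2] at h1
        refine ⟨h1.2.1, h1.1, ?_⟩
        have hsub : (univ.filter fun v => g v = i) ⊆ P i := by
          intro w hw
          rw [mem_filter] at hw
          rw [← hw.2]
          exact (hg w).2.2.2
        have h5 := eq_of_subset_of_card_le hsub (by rw [h4, h1.1])
        intro w
        rw [← h5, mem_filter]
        simp
      obtain ⟨q⟩ : Nonempty (I ≃ Fin k) := ⟨Fintype.equivFinOfCardEq (by simp [hIk])⟩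
      refine ⟨fun v => q ⟨g v, (hg v).1⟩, fun j => ?_⟩
      obtain ⟨h6, h7, h8⟩ := hfP (q.symm j).1 (q.symm j).2
      refine ⟨P (q.symm j).1, h6, h7, fun v => ?_⟩
      rw [h8]
      constructor
      · intro hv
        have : (⟨g v, (hg v).1⟩ : I) = q.symm j := Subtype.ext hv
        change q ⟨g v, (hg v).1⟩ = j
        rw [this, Equiv.apply_symm_apply]
      · intro hv
        have : (⟨g v, (hg v).1⟩ : I) = q.symm j := by
          rw [← hv, Equiv.symm_apply_apply]
        exact congrArg Subtype.val this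
    · rintro ⟨y, hy⟩
      choose A hA1 hA2 hA3 using hy
      obtain ⟨R, hR⟩ : ∃ R : Fin k → Fin (n.choose h), R = fun j =>
          e ⟨(A j).map (Fin.castLEEmb hn), by rw [card_map, hA2]⟩ := ⟨_, rfl⟩
      have hPR : ∀ j, P (R j) = A j := by
        intro j
        ext v
        rw [hmem, hR]
        simp only [Equiv.symm_apply_apply, mem_map]
        constructor
        · rintro ⟨w, hw, hwv⟩
          have : w = v := Fin.castLE_injective hn hwv
          rw [← this]; exact hw
        · exact fun hv => ⟨v, hv, rfl⟩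
      refine ⟨univ.image R, ?_, fun v => ?_⟩
      · exact card_image_le.trans (by simp)
      · by_cases hv : ∃ v', Fin.castLE hn v' = v
        · obtain ⟨v', hv'⟩ := hv
          refine ⟨R (y v'), mem_image_of_mem _ (mem_univ _), ?_, ?_, ?_⟩
          · rw [hPR, hA2]
          · rw [hPR]; exact hA1 _
          · intro w hw
            have : w = v' := Fin.castLE_injective hn (hw.trans hv'.symm)
            rw [hPR, this, hA3]
        · refine ⟨R ⟨0, hk⟩, mem_image_of_mem _ (mem_univ _), ?_, ?_, ?_⟩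
          · rw [hPR, hA2]
          · rw [hPR]; exact hA1 _
          · intro w hw
            exact absurd ⟨w, hw⟩ hv

/-- The partition problem for `h`-subsets of `Fin (k * h)` is a restriction of Set Cover. -/
theorem embed {n k h : ℕ} (hk : 0 < k) (hh : 0 < h) (hn : k * h ≤ n) :
    ∃ Γ : (Finset (Fin (k * h)) → Prop) → Fin (n.choose h) → Fin n → Prop,
      (∀ i v, (∀ x, ¬ Γ x i v) ∨ ∃ A : Finset (Fin (k * h)), A.card = h ∧ ∀ x, Γ x i v ↔ x A) ∧
      (∀ x (y : Fin (k * h) → Fin k), (∀ j, ∃ A, x A ∧ A.card = h ∧ ∀ v, v ∈ A ↔ y v = j) →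
        HasCover k (Γ x)) ∧
      ∀ (p : ℕ) (f : Fin (k * h) → ZMod p), ∑ v, f v ≠ 0 →
        ¬ HasCover k (Γ fun A => ∑ v ∈ A, f v = 0) := by
  classical
  obtain ⟨Γ, h1, h2⟩ := embed_iff hk hh hn
  refine ⟨Γ, h1, fun x y hy => (h2 x).2 ⟨y, hy⟩, fun p f hf hc => hf ?_⟩
  obtain ⟨y, hy⟩ := (h2 _).1 hc
  rw [← sum_fiberwise univ y f]
  apply sum_eq_zero
  intro j _
  obtain ⟨A, hA, -, hAj⟩ := hy j
  have : (univ.filter fun v => y v = j) = A := by
    ext v
    simp [hAj]
  rw [this]
  exact hA

end SetCoverMono
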