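import Pool.Agent.Lib.MP_8fffab_lc_MC.End
import Pool.Agent.Lib.MP_8fffab_lc_MC.Embed
import Pool.Agent.Lib.MP_8fffab_lc_scm_h93.OneDimI

/-!
# The lower bound for `n = k * h`
-/

open Finset Filter

namespace SetCoverMono

theorem eventually_poly_le (C : ℝ) {δ : ℝ} (hδ : 0 < δ) :
    ∀ᶠ n : ℕ in atTop, C * ((n : ℝ) + 1) ≤ (2 : ℝ) ^ (δ * n) := by
  have hr : (1 : ℝ) < 2 ^ δ := Real.one_lt_rpow (by norm_num) hδ
  have h1 := tendsto_pow_const_div_const_pow_of_one_lt 1 hr
  have h2 : Tendsto (fun n : ℕ => (1 : ℝ) / (2 ^ δ) ^ n) atTop (nhds 0) := by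
    simpa using tendsto_pow_const_div_const_pow_of_one_lt 0 hr
  have h3 : Tendsto (fun n : ℕ => C * ((n : ℝ) ^ 1 / (2 ^ δ) ^ n + 1 / (2 ^ δ) ^ n)) atTop
      (nhds (C * (0 + 0))) := (h1.add h2).const_mul C
  rw [add_zero, mul_zero] at h3
  filter_upwards [h3.eventually_le_const (show (0 : ℝ) < 1 by norm_num)] with n hn
  have hp : (0 : ℝ) < (2 ^ δ) ^ n := by positivity
  have e : (2 : ℝ) ^ (δ * n) = (2 ^ δ) ^ n := by
    rw [Real.rpow_mul (by norm_num), Real.rpow_natCast]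
  rw [e]
  have h4 : C * ((n : ℝ) ^ 1 / (2 ^ δ) ^ n + 1 / (2 ^ δ) ^ n) = C * ((n : ℝ) + 1) / (2 ^ δ) ^ n := by
    rw [pow_one]
    ring
  rw [h4, div_le_one hp] at hn
  exact hn

/-- The lower bound for the partition problem with literal inputs. -/
theorem core_lit {k : ℕ} (hk : 2 ≤ k) {η : ℝ} (hη : 0 < η) : ∃ h₀ : ℕ, ∀ h ≥ h₀,
    ∃ (p : ℕ) (_ : Fact p.Prime), ∀ {ι : Type}
      {a : (Finset (Fin (k * h)) → Prop) → ι → Prop}, IsLit (k * h) h a →
      ∀ (C : Circuit ι) {o s : ℕ}, o < s →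
        (∀ π : Equiv.Perm (Fin (k * h)), C.val (a (classes (col k h ∘ π))) o) →
        (∀ f : Fin (k * h) → ZMod p, ∑ v, f v ≠ 0 → ¬ C.val (a (zeros f)) o) →
        (2 : ℝ) ^ ((1 - η) * (k * h : ℕ)) ≤ C.numAnd s := by
  obtain ⟨H, hH⟩ : ∃ H : ℕ, 4 * k / η ≤ H := exists_nat_ge _
  have hk0 : (0 : ℝ) < k := by
    have : 0 < k := by omega
    exact_mod_cast this
  have hH0 : 0 < H := by
    have : (0 : ℝ) < H := lt_of_lt_of_le (by positivity) hH
    exact_mod_cast this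
  obtain ⟨p, t, hp, hG, h1⟩ := one_dim k (H * (k + 2))
  obtain ⟨n₁, hn₁⟩ := eventually_atTop.1 (eventually_poly_le ((3 : ℝ) ^ k) (half_pos hη))
  -- a bound for the constants
  obtain ⟨E, hE⟩ : ∃ E : ℕ, p ^ (k * (2 * t + 2)) ≤ 2 ^ E := by
    refine ⟨p ^ (k * (2 * t + 2)), Nat.lt_two_pow_self.le⟩
  refine ⟨n₁ + H * (k + 2) + k + 2 + E, fun h hh => ⟨p, hp, ?_⟩⟩
  intro ι a ha C o s ho hpos hneg
  set n := k * h with hn
  have hnh : h ≤ n := by
    calc h = 1 * h := by ring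
      _ ≤ k * h := Nat.mul_le_mul_right _ (by omega)
  rcases core_nat (κ := 2 ^ (n / H)) hG h1 (Nat.pow_pos (by norm_num)) hk (by omega) ha C ho
    hpos hneg with h2 | h2
  · -- positive side
    rw [← hn] at h2
    have h3 : (2 : ℝ) ^ (n : ℝ) ≤ C.numAnd s * ((2 : ℝ) ^ (η / 2 * n) * (2 : ℝ) ^ (η / 2 * n)) := by
      have h4 : (2 : ℝ) ^ n ≤ C.numAnd s *
          ((2 ^ (n / H)) ^ k * (2 ^ (n / H)) ^ k * (3 ^ k * ((n : ℝ) + 1))) := by
        exact_mod_cast h2
      rw [Real.rpow_natCast]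
      refine h4.trans ?_
      have h5 : (3 : ℝ) ^ k * ((n : ℝ) + 1) ≤ (2 : ℝ) ^ (η / 2 * n) := hn₁ n (by omega)
      have h6 : ((2 : ℝ) ^ (n / H)) ^ k * (2 ^ (n / H)) ^ k ≤ (2 : ℝ) ^ (η / 2 * n) := by
        rw [← pow_mul, ← pow_add, ← Real.rpow_natCast]
        apply Real.rpow_le_rpow_of_exponent_le (by norm_num)
        push_cast
        have h7 : ((n / H : ℕ) : ℝ) ≤ n / H := Nat.cast_div_le
        have hHr : (0 : ℝ) < H := by exact_mod_cast hH0
        have h8 : (4 : ℝ) * k ≤ η * H := by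
          rw [div_le_iff₀ hη] at hH
          linarith
        have h9 : (n : ℝ) / H * (4 * k) ≤ n * η := by
          rw [div_mul_eq_mul_div, div_le_iff₀ hHr]
          have : (0 : ℝ) ≤ n := Nat.cast_nonneg _
          nlinarith
        have h10 : ((n / H : ℕ) : ℝ) * (4 * k) ≤ n * η :=
          (mul_le_mul_of_nonneg_right h7 (by positivity)).trans h9
        linarith
      gcongr
    have h11 : (0 : ℝ) < (2 : ℝ) ^ (η * n) := by positivity
    have h12 : (2 : ℝ) ^ (η / 2 * n) * (2 : ℝ) ^ (η / 2 * n) = (2 : ℝ) ^ (η * n) := by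
      rw [← Real.rpow_add (by norm_num)]
      congr 1
      ring
    rw [h12] at h3
    have h13 : (2 : ℝ) ^ ((1 - η) * (n : ℝ)) * (2 : ℝ) ^ (η * n) = (2 : ℝ) ^ (n : ℝ) := by
      rw [← Real.rpow_add (by norm_num)]
      congr 1
      ring
    rw [← h13] at h3
    exact le_of_mul_le_mul_right h3 h11
  · -- negative side
    rw [← hn] at h2
    have h3 : 2 ^ n ≤ C.numAnd s := by
      have h4 : (k + 1) ^ (n + 1) ≤ 2 ^ (k * (n + 1)) := by
        rw [pow_mul]
        exact Nat.pow_le_pow_left Nat.lt_two_pow_self _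
      have h5 : 2 ^ n * 2 ^ (1 + k * (n + 1) + E) ≤
          C.numAnd s * 2 ^ (1 + k * (n + 1) + E) := by
        calc 2 ^ n * 2 ^ (1 + k * (n + 1) + E) = 2 ^ (n + (1 + k * (n + 1) + E)) := by
              rw [← pow_add]
          _ ≤ 2 ^ (n / H * (H * (k + 2))) := by
              apply Nat.pow_le_pow_right (by norm_num)
              have h6 : n ≤ n / H * H + H := by
                have := Nat.lt_div_mul_add (a := n) hH0
                omega
              have h7 : (k + 2) * n ≤ (k + 2) * (n / H * H + H) := Nat.mul_le_mul_left _ h6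
              have h8 : (k + 2) * (n / H * H + H) = n / H * (H * (k + 2)) + H * (k + 2) := by
                ring
              have h9 : (k + 2) * n = n + (1 + k * (n + 1) + E) + (n - (1 + k + E)) := by
                have : n + (1 + k * (n + 1) + E) + (n - (1 + k + E)) =
                    n + k * n + (1 + k + E) + (n - (1 + k + E)) := by ring
                rw [this, add_assoc, Nat.add_sub_cancel' (by omega)]
                ring
              omega
          _ = (2 ^ (n / H)) ^ (H * (k + 2)) := by rw [← pow_mul]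
          _ ≤ C.numAnd s * (2 * ((k + 1) ^ (n + 1) * p ^ (k * (2 * t + 2)))) := h2
          _ ≤ C.numAnd s * (2 * (2 ^ (k * (n + 1)) * 2 ^ E)) := by gcongr
          _ = _ := by
              rw [pow_add, pow_add]
              ring
      exact Nat.le_of_mul_le_mul_right h5 (Nat.pow_pos (by norm_num))
    calc (2 : ℝ) ^ ((1 - η) * (n : ℝ)) ≤ (2 : ℝ) ^ (n : ℝ) := by
          apply Real.rpow_le_rpow_of_exponent_le (by norm_num)
          have : (0 : ℝ) ≤ n := Nat.cast_nonneg _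
          nlinarith
      _ = (2 : ℝ) ^ n := Real.rpow_natCast _ _
      _ ≤ C.numAnd s := by exact_mod_cast h3

theorem numAnd_mono' {ι : Type} (C : Circuit ι) (s : ℕ) : C.numAnd s ≤ s := by
  unfold Circuit.numAnd
  exact (card_filter_le _ _).trans (by simp)

/-- Set Cover with `n.choose h` sets. -/
theorem core {k : ℕ} (hk : 2 ≤ k) {η : ℝ} (hη : 0 < η) : ∃ h₀ : ℕ, ∀ h ≥ h₀, ∀ n, k * h ≤ n →
    ∀ t, HasMonotoneCircuit (n.choose h) n k t →
      (2 : ℝ) ^ ((1 - η) * (k * h : ℕ)) ≤ t := by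
  classical
  obtain ⟨h₀, hh₀⟩ := core_lit hk hη
  refine ⟨h₀ + 1, fun h hh n hn t hC => ?_⟩
  obtain ⟨p, hp, hcore⟩ := hh₀ h (by omega)
  obtain ⟨Γ, hlit, hpos, hneg⟩ := embed (k := k) (h := h) (by omega) (by omega) hn
  obtain ⟨C, s, hs, o, ho, hCo⟩ := hC
  have hlit' : IsLit (k * h) h (fun x (q : Fin (n.choose h) × Fin n) => Γ x q.1 q.2) := by
    rintro ⟨i, v⟩
    exact Or.inr (hlit i v)
  refine (hcore hlit' C ho ?_ ?_).trans (by exact_mod_cast hs)
  · intro π
    rw [hCo]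
    refine hpos _ (col k h ∘ π) fun j => ?_
    refine ⟨univ.filter fun v => (col k h ∘ π) v = j, ⟨j, fun v => by simp⟩,
      card_col_perm k h π j, fun v => by simp⟩
  · intro f hf
    rw [hCo]
    exact hneg p f hf

end SetCoverMono
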