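import Pool.Agent.Lib.MP_8fffab_lc_scm.Tensor

/-!
# Hitting lemma
-/

open Finset

namespace SetCoverMono

/-- The hypothesis supplied by the one-dimensional inequality. -/
def OneDim (p k t G : ℕ) [NeZero p] : Prop :=
  ∀ S : Finset (ZMod p), S.card ≤ k → ∀ A : ZMod p → ℂ,
      ∑ a : ZMod p, ‖∑ s ∈ S, A s * ZMod.stdAddChar (a * s)‖ ^ (2 * t) ≤
        p * (∑ s ∈ S, ‖A s‖ ^ ((2 * t : ℝ) / ((2 * t - G : ℕ) : ℝ))) ^ (2 * t - G)

/-- Orthogonality. -/
theorem sum_char_eq_zero {p n : ℕ} [Fact p.Prime] (V : Submodule (ZMod p) (Fin n → ZMod p))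
    [DecidablePred (· ∈ V)] (f : Fin n → ZMod p) (h : ∃ w ∈ V, f ⬝ᵥ w ≠ 0) :
    ∑ w ∈ univ.filter (· ∈ V), ZMod.stdAddChar (f ⬝ᵥ w) = 0 := by
  obtain ⟨w₀, hw₀, hne⟩ := h
  set S := ∑ w ∈ univ.filter (· ∈ V), ZMod.stdAddChar (f ⬝ᵥ w) with hS
  have h1 : ∑ w ∈ univ.filter (· ∈ V), ZMod.stdAddChar (f ⬝ᵥ (w + w₀)) = S := by
    refine Finset.sum_nbij (· + w₀) ?_ ?_ ?_ ?_
    · intro w hw
      simp only [mem_filter, mem_univ, true_and] at hw ⊢
      exact V.add_mem hw hw₀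
    · intro a _ b _ hab
      exact add_right_cancel hab
    · intro w hw
      simp only [coe_filter, mem_univ, true_and, Set.mem_ofPred_eq] at hw
      refine ⟨w - w₀, ?_, by simp⟩
      simp only [coe_filter, mem_univ, true_and, Set.mem_ofPred_eq]
      exact V.sub_mem hw hw₀
    · intro w _
      rfl
  have h2 : ∑ w ∈ univ.filter (· ∈ V), ZMod.stdAddChar (f ⬝ᵥ (w + w₀)) =
      S * ZMod.stdAddChar (f ⬝ᵥ w₀) := by
    rw [hS, Finset.sum_mul]
    refine Finset.sum_congr rfl fun w _ => ?_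
    rw [dotProduct_add, AddChar.map_add_eq_mul]
  have h3 : ZMod.stdAddChar (f ⬝ᵥ w₀) ≠ 1 := by
    intro h
    apply hne
    apply ZMod.injective_stdAddChar
    rw [h, AddChar.map_zero_eq_one]
  have h4 : S * (ZMod.stdAddChar (f ⬝ᵥ w₀) - 1) = 0 := by
    rw [mul_sub, mul_one, ← h2, h1, sub_self]
  rcases mul_eq_zero.1 h4 with h | h
  · exact h
  · exact absurd (sub_eq_zero.1 h) h3

theorem hit {p n k t G : ℕ} [Fact p.Prime] (hG : G < 2 * t) (h1 : OneDim p k t G)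
    {ι : Type} [DecidableEq ι] (ℬ : Finset ι) (hne : ℬ.Nonempty)
    (V : ι → Submodule (ZMod p) (Fin n → ZMod p))
    (y : ι → Fin n → Fin k) (hy : ∀ b ∈ ℬ, ∀ w ∈ V b, ∃ c : Fin k → ZMod p, w = c ∘ y b)
    (V₀ : Submodule (ZMod p) (Fin n → ZMod p)) (h0 : ∀ b ∈ ℬ, V₀ ≤ V b)
    {κ : ℕ} (hκ : 0 < κ) [∀ b, DecidablePred (· ∈ V b)]
    (hM : ∀ w ∉ V₀, (ℬ.filter fun b => w ∈ V b).card * κ ≤ ℬ.card)
    (F : Finset (Fin n → ZMod p))
    (hF : ∀ f ∈ F, (∀ w ∈ V₀, f ⬝ᵥ w = 0) ∧ ∀ b ∈ ℬ, ∃ w ∈ V b, f ⬝ᵥ w ≠ 0) :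
    κ ^ G * F.card ≤ p ^ (n + k * (2 * t + 1)) := by
  classical
  -- choice of the letters
  have hch : ∀ b : ι, ∀ w : Fin n → ZMod p, ∃ c : Fin k → ZMod p,
      b ∈ ℬ → w ∈ V b → w = c ∘ y b := by
    intro b w
    by_cases hb : b ∈ ℬ ∧ w ∈ V b
    · obtain ⟨c, hc⟩ := hy b hb.1 w hb.2
      exact ⟨c, fun _ _ => hc⟩
    · exact ⟨0, fun h h' => absurd ⟨h, h'⟩ hb⟩
  choose ch hch using hch
  let m : (Fin k → ZMod p) → (Fin n → ZMod p) → ℕ := fun c w =>
    (ℬ.filter fun b => w ∈ V b ∧ w ∉ V₀ ∧ ch b w = c).card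
  let g : (Fin k → ZMod p) → (Fin n → ZMod p) → ℂ := fun c f =>
    ∑ w : Fin n → ZMod p, (m c w : ℂ) * ZMod.stdAddChar (f ⬝ᵥ w)
  have hN : (0 : ℝ) < ℬ.card := by exact_mod_cast hne.card_pos
  have hκ' : (0 : ℝ) < κ := by exact_mod_cast hκ
  -- pointwise
  have key : ∀ f ∈ F, (ℬ.card : ℝ) ≤ ∑ c : Fin k → ZMod p, ‖g c f‖ := by
    intro f hf
    obtain ⟨hf0, hfb⟩ := hF f hf
    have e1 : ∀ b ∈ ℬ, ∑ w ∈ univ.filter (fun w => w ∈ V b ∧ w ∉ V₀),
        ZMod.stdAddChar (f ⬝ᵥ w) = - ((univ.filter (fun w => w ∈ V₀)).card : ℂ) := by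
      intro b hb
      have h2 := sum_char_eq_zero (V b) f (hfb b hb)
      rw [← Finset.sum_filter_add_sum_filter_not _ (fun w => w ∈ V₀)] at h2
      rw [Finset.filter_filter, Finset.filter_filter] at h2
      have h3 : ∑ w ∈ univ.filter (fun w => w ∈ V b ∧ w ∈ V₀), ZMod.stdAddChar (f ⬝ᵥ w) =
          ((univ.filter (fun w => w ∈ V₀)).card : ℂ) := by
        have h4 : univ.filter (fun w => w ∈ V b ∧ w ∈ V₀) = univ.filter (fun w => w ∈ V₀) := by
          apply Finset.filter_congr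
          intro w _
          exact ⟨fun h => h.2, fun h => ⟨h0 b hb h, h⟩⟩
        rw [h4, Finset.card_eq_sum_ones, Nat.cast_sum]
        refine Finset.sum_congr rfl fun w hw => ?_
        rw [hf0 w (by simpa using hw), AddChar.map_zero_eq_one]
        simp
      rw [h3] at h2
      exact eq_neg_of_add_eq_zero_right h2
    have e2 : ∑ c : Fin k → ZMod p, g c f =
        ∑ b ∈ ℬ, ∑ w ∈ univ.filter (fun w => w ∈ V b ∧ w ∉ V₀), ZMod.stdAddChar (f ⬝ᵥ w) := by
      have h5 : ∀ c w, (m c w : ℂ) * ZMod.stdAddChar (f ⬝ᵥ w) =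
          ∑ b ∈ ℬ, if w ∈ V b ∧ w ∉ V₀ ∧ ch b w = c then ZMod.stdAddChar (f ⬝ᵥ w) else 0 := by
        intro c w
        rw [← Finset.sum_filter, Finset.sum_const, nsmul_eq_mul]
      simp only [g, h5]
      rw [Finset.sum_comm]
      have h6 : ∀ w : Fin n → ZMod p, ∑ c : Fin k → ZMod p, ∑ b ∈ ℬ,
          (if w ∈ V b ∧ w ∉ V₀ ∧ ch b w = c then ZMod.stdAddChar (f ⬝ᵥ w) else 0) =
          ∑ b ∈ ℬ, if w ∈ V b ∧ w ∉ V₀ then ZMod.stdAddChar (f ⬝ᵥ w) else 0 := by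
        intro w
        rw [Finset.sum_comm]
        refine Finset.sum_congr rfl fun b _ => ?_
        by_cases hb : w ∈ V b ∧ w ∉ V₀
        · rw [if_pos hb]
          have : ∀ c, (if w ∈ V b ∧ w ∉ V₀ ∧ ch b w = c then ZMod.stdAddChar (f ⬝ᵥ w) else 0) =
              if ch b w = c then (ZMod.stdAddChar (f ⬝ᵥ w) : ℂ) else 0 := by
            intro c
            by_cases hc : ch b w = c
            · rw [if_pos hc, if_pos ⟨hb.1, hb.2, hc⟩]
            · rw [if_neg hc, if_neg fun h => hc h.2.2]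
          rw [Finset.sum_congr rfl fun c _ => this c]
          simp
        · rw [if_neg hb]
          refine Finset.sum_eq_zero fun c _ => if_neg fun h => hb ⟨h.1, h.2.1⟩
      rw [Finset.sum_congr rfl fun w _ => h6 w, Finset.sum_comm]
      refine Finset.sum_congr rfl fun b _ => ?_
      rw [← Finset.sum_filter]
    have e3 : ∑ c : Fin k → ZMod p, g c f =
        -((ℬ.card : ℂ) * ((univ.filter (fun w => w ∈ V₀)).card : ℂ)) := by
      rw [e2, Finset.sum_congr rfl e1, Finset.sum_const, nsmul_eq_mul]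
      ring
    have e4 : 1 ≤ (univ.filter (fun w : Fin n → ZMod p => w ∈ V₀)).card := by
      apply Finset.card_pos.2
      exact ⟨0, by simp⟩
    calc (ℬ.card : ℝ) ≤ ℬ.card * ((univ.filter (fun w => w ∈ V₀)).card : ℝ) := by
          have : (1 : ℝ) ≤ ((univ.filter (fun w => w ∈ V₀)).card : ℝ) := by exact_mod_cast e4
          nlinarith
      _ = ‖∑ c : Fin k → ZMod p, g c f‖ := by
          rw [e3, norm_neg, norm_mul, Complex.norm_natCast, Complex.norm_natCast]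
      _ ≤ _ := norm_sum_le _ _
  -- powers
  have hcard : (Fintype.card (Fin k → ZMod p) : ℝ) = (p : ℝ) ^ k := by
    simp [ZMod.card]
  have hp0 : (0 : ℝ) < p := by
    have := (Fact.out : p.Prime).pos
    exact_mod_cast this
  have key2 : ∀ f ∈ F, (ℬ.card : ℝ) ^ (2 * t) ≤
      ((p : ℝ) ^ k) ^ (2 * t) * ∑ c : Fin k → ZMod p, ‖g c f‖ ^ (2 * t) := by
    intro f hf
    obtain ⟨c, -, hc⟩ := Finset.exists_le_of_sum_le (s := (univ : Finset (Fin k → ZMod p)))
      (f := fun _ => (ℬ.card : ℝ) / (p : ℝ) ^ k) (g := fun c => ‖g c f‖) ⟨0, mem_univ _⟩ (by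
        rw [Finset.sum_const, Finset.card_univ, nsmul_eq_mul, hcard]
        rw [mul_div_cancel₀ _ (by positivity)]
        exact key f hf)
    have h7 : (ℬ.card : ℝ) ≤ (p : ℝ) ^ k * ‖g c f‖ := by
      rw [div_le_iff₀ (by positivity)] at hc
      linarith
    calc (ℬ.card : ℝ) ^ (2 * t) ≤ ((p : ℝ) ^ k * ‖g c f‖) ^ (2 * t) :=
          pow_le_pow_left₀ hN.le h7 _
      _ = ((p : ℝ) ^ k) ^ (2 * t) * ‖g c f‖ ^ (2 * t) := by rw [mul_pow]
      _ ≤ _ := by
          gcongr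
          exact Finset.single_le_sum (f := fun c => ‖g c f‖ ^ (2 * t))
            (fun c _ => by positivity) (mem_univ c)
  -- the moment of `g c`
  set T : ℕ := 2 * t - G with hT
  have hT1 : 1 ≤ T := by omega
  set q : ℝ := (2 * t : ℝ) / (T : ℝ) with hq
  have hT0 : (0 : ℝ) < T := by exact_mod_cast hT1
  have hTG : (T : ℝ) = 2 * t - G := by
    rw [hT, Nat.cast_sub hG.le]
    push_cast
    ring
  have ht0 : (0 : ℝ) < t := by
    have : 0 < t := by omega
    exact_mod_cast this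
  have hq0 : 0 < q := by rw [hq]; positivity
  have hq1 : 1 ≤ q := by
    rw [hq, le_div_iff₀ hT0, hTG]
    have : (0 : ℝ) ≤ G := Nat.cast_nonneg _
    linarith
  have hmsum : ∀ c, ∑ w : Fin n → ZMod p, (m c w : ℝ) ≤ ℬ.card := by
    intro c
    have h8 : ∑ w : Fin n → ZMod p, m c w ≤ ℬ.card := by
      simp only [m, Finset.card_filter]
      rw [Finset.sum_comm, Finset.card_eq_sum_ones]
      refine Finset.sum_le_sum fun b hb => ?_
      rw [← Finset.card_filter]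
      apply Finset.card_le_one.2
      intro w hw w' hw'
      simp only [mem_filter, mem_univ, true_and] at hw hw'
      rw [hch b w hb hw.1, hch b w' hb hw'.1, hw.2.2, hw'.2.2]
    exact_mod_cast h8
  have hmle : ∀ c w, (m c w : ℝ) ≤ ℬ.card / κ := by
    intro c w
    rw [le_div_iff₀ hκ']
    by_cases hw : w ∈ V₀
    · have : m c w = 0 := by
        simp only [m]
        rw [Finset.card_eq_zero, Finset.filter_eq_empty_iff]
        intro b _ h
        exact h.2.1 hw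
      rw [this]
      simp
    · have h9 : m c w ≤ (ℬ.filter fun b => w ∈ V b).card := by
        simp only [m]
        apply Finset.card_le_card
        intro b hb
        simp only [mem_filter] at hb ⊢
        exact ⟨hb.1, hb.2.1⟩
      have h10 : m c w * κ ≤ ℬ.card := (Nat.mul_le_mul_right _ h9).trans (hM w hw)
      exact_mod_cast h10
  have hmq : ∀ c, ∑ w : Fin n → ZMod p, ‖(m c w : ℂ)‖ ^ q ≤
      (ℬ.card / κ : ℝ) ^ (q - 1) * ℬ.card := by
    intro c
    calc ∑ w : Fin n → ZMod p, ‖(m c w : ℂ)‖ ^ q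
        ≤ ∑ w : Fin n → ZMod p, (ℬ.card / κ : ℝ) ^ (q - 1) * (m c w : ℝ) := by
          refine Finset.sum_le_sum fun w _ => ?_
          rw [Complex.norm_natCast]
          have h11 : (0 : ℝ) ≤ m c w := Nat.cast_nonneg _
          rcases h11.eq_or_lt with h12 | h12
          · rw [← h12, Real.zero_rpow hq0.ne']
            simp
          · calc (m c w : ℝ) ^ q = (m c w : ℝ) ^ (q - 1) * (m c w : ℝ) := by
                  rw [← Real.rpow_add_one h12.ne']
                  congr 1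
                  ring
              _ ≤ _ := by
                  have h11' : 0 ≤ q - 1 := by linarith
                  gcongr
                  exact hmle c w
      _ = (ℬ.card / κ : ℝ) ^ (q - 1) * ∑ w : Fin n → ZMod p, (m c w : ℝ) := by
          rw [Finset.mul_sum]
      _ ≤ _ := by
          gcongr
          exact hmsum c
  have hmom : ∀ c, ∑ f : Fin n → ZMod p, ‖g c f‖ ^ (2 * t) ≤
      (p : ℝ) ^ n * ((ℬ.card : ℝ) ^ (2 * t) / (κ : ℝ) ^ G) := by
    intro c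
    have hS : ∀ w, (m c w : ℂ) ≠ 0 → ∀ i, w i ∈ univ.image c := by
      intro w hw i
      have hw' : m c w ≠ 0 := by exact_mod_cast hw
      obtain ⟨b, hb⟩ := Finset.card_pos.1 (Nat.pos_of_ne_zero hw')
      simp only [mem_filter] at hb
      rw [hch b w hb.1 hb.2.1, hb.2.2.2]
      exact mem_image_of_mem _ (mem_univ _)
    have hqT : q * (T : ℝ) = 2 * t := by
      rw [hq, div_mul_cancel₀ _ hT0.ne']
    have h13 := tensor (p := p) (q := q) hq0 (t := t) hT1 hqT (S := univ.image c)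
      (h1 _ (card_image_le.trans (by simp))) n (fun w => (m c w : ℂ)) hS
    refine h13.trans ?_
    gcongr
    calc (∑ w : Fin n → ZMod p, ‖(m c w : ℂ)‖ ^ q) ^ T
        ≤ ((ℬ.card / κ : ℝ) ^ (q - 1) * ℬ.card) ^ T :=
          pow_le_pow_left₀ (Finset.sum_nonneg fun w _ => by positivity) (hmq c) _
      _ = (ℬ.card : ℝ) ^ (2 * t) / (κ : ℝ) ^ G := by
          have h14 : (q - 1) * T = G := by
            rw [sub_mul, hq, div_mul_cancel₀ _ hT0.ne', hTG]
            ring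
          rw [mul_pow, ← Real.rpow_natCast ((ℬ.card / κ : ℝ) ^ (q - 1)) T,
            ← Real.rpow_mul (by positivity), h14, Real.rpow_natCast, div_pow]
          have h15 : G + T = 2 * t := by omega
          rw [← h15, pow_add]
          ring
  -- conclusion
  have hfin : (F.card : ℝ) * (ℬ.card : ℝ) ^ (2 * t) ≤
      ((p : ℝ) ^ k) ^ (2 * t) * ((p : ℝ) ^ k *
        ((p : ℝ) ^ n * ((ℬ.card : ℝ) ^ (2 * t) / (κ : ℝ) ^ G))) := by
    calc (F.card : ℝ) * (ℬ.card : ℝ) ^ (2 * t) = ∑ f ∈ F, (ℬ.card : ℝ) ^ (2 * t) := by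
          rw [Finset.sum_const, nsmul_eq_mul]
      _ ≤ ∑ f ∈ F, ((p : ℝ) ^ k) ^ (2 * t) * ∑ c : Fin k → ZMod p, ‖g c f‖ ^ (2 * t) :=
          Finset.sum_le_sum key2
      _ ≤ ∑ f : Fin n → ZMod p,
            ((p : ℝ) ^ k) ^ (2 * t) * ∑ c : Fin k → ZMod p, ‖g c f‖ ^ (2 * t) :=
          Finset.sum_le_sum_of_subset_of_nonneg (subset_univ _) fun f _ _ => by positivity
      _ = ((p : ℝ) ^ k) ^ (2 * t) *
            ∑ c : Fin k → ZMod p, ∑ f : Fin n → ZMod p, ‖g c f‖ ^ (2 * t) := by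
          rw [← Finset.mul_sum, Finset.sum_comm]
      _ ≤ ((p : ℝ) ^ k) ^ (2 * t) * ∑ c : Fin k → ZMod p,
            ((p : ℝ) ^ n * ((ℬ.card : ℝ) ^ (2 * t) / (κ : ℝ) ^ G)) := by
          gcongr with c _
          exact hmom c
      _ = _ := by
          rw [Finset.sum_const, Finset.card_univ, nsmul_eq_mul, hcard]
  have hfin2 : (κ : ℝ) ^ G * F.card ≤ (p : ℝ) ^ (n + k * (2 * t + 1)) := by
    have hNp : (0 : ℝ) < (ℬ.card : ℝ) ^ (2 * t) := by positivity
    have hKp : (0 : ℝ) < (κ : ℝ) ^ G := by positivity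
    have h16 : ((p : ℝ) ^ k) ^ (2 * t) * ((p : ℝ) ^ k *
        ((p : ℝ) ^ n * ((ℬ.card : ℝ) ^ (2 * t) / (κ : ℝ) ^ G))) =
        (p : ℝ) ^ (n + k * (2 * t + 1)) * (ℬ.card : ℝ) ^ (2 * t) / (κ : ℝ) ^ G := by
      have : (p : ℝ) ^ (n + k * (2 * t + 1)) = ((p : ℝ) ^ k) ^ (2 * t) * (p : ℝ) ^ k * (p : ℝ) ^ n := by
        rw [← pow_mul, ← pow_add, ← pow_add]
        congr 1
        ring
      rw [this]
      ring
    rw [h16, le_div_iff₀ hKp] at hfin
    have h17 : (κ : ℝ) ^ G * F.card * (ℬ.card : ℝ) ^ (2 * t) ≤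
        (p : ℝ) ^ (n + k * (2 * t + 1)) * (ℬ.card : ℝ) ^ (2 * t) := by linarith
    exact le_of_mul_le_mul_right h17 hNp
  exact_mod_cast hfin2

end SetCoverMono
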