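import Pool.Agent.Lib.MP_8fffab_lc_MC.Term
import Pool.Agent.Lib.MP_8fffab_lc_MC.Hit

/-!
# Closed families: few minimal elements, and closures
-/

open Finset

namespace SetCoverMono

/-- The vectors `f` which satisfy `b` and no member of `𝒜`. -/
noncomputable def newF (p : ℕ) [NeZero p] {n : ℕ} (𝒜 : Finset (Tm n)) (b : Tm n) :
    Finset (Fin n → ZMod p) := by
  classical exact univ.filter fun f => NegSat f b ∧ ∀ b' ∈ 𝒜, ¬ NegSat f b'

theorem mem_newF {p n : ℕ} [NeZero p] {𝒜 : Finset (Tm n)} {b : Tm n} {f : Fin n → ZMod p} :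
    f ∈ newF p 𝒜 b ↔ NegSat f b ∧ ∀ b' ∈ 𝒜, ¬ NegSat f b' := by
  classical
  simp [newF]

/-- Closed families of terms. -/
def Cl (p K e : ℕ) [NeZero p] {n : ℕ} (𝒯 𝒜 : Finset (Tm n)) : Prop :=
  𝒜 ⊆ 𝒯 ∧ ∀ b ∈ 𝒯, K * (newF p 𝒜 b).card ≤ p ^ e → b ∈ 𝒜

/-- Minimal terms (coarsest relations) of a family. -/
noncomputable def minT {n : ℕ} (𝒜 : Finset (Tm n)) : Finset (Tm n) := by
  classical exact 𝒜.filter fun b => ∀ b' ∈ 𝒜, b ≤ b' → b' = b

theorem mem_minT {n : ℕ} {𝒜 : Finset (Tm n)} {b : Tm n} :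
    b ∈ minT 𝒜 ↔ b ∈ 𝒜 ∧ ∀ b' ∈ 𝒜, b ≤ b' → b' = b := by
  classical
  simp [minT]

theorem exists_minT {n : ℕ} {𝒜 : Finset (Tm n)} {b : Tm n} (hb : b ∈ 𝒜) :
    ∃ b' ∈ minT 𝒜, b ≤ b' := by
  classical
  obtain ⟨b', hb', hmax⟩ := (𝒜.filter fun b' => b ≤ b').exists_maximal ⟨b, by simp [hb]⟩
  rw [mem_filter] at hb'
  refine ⟨b', mem_minT.2 ⟨hb'.1, fun c hc hle => ?_⟩, hb'.2⟩
  exact le_antisymm (hmax (mem_filter.2 ⟨hc, hb'.2.trans hle⟩) hle) hle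

theorem min_card {p n k t G κ : ℕ} [Fact p.Prime] (hG : G < 2 * t) (h1 : OneDim p k t G)
    (hκ : 0 < κ) {𝒯 𝒜 : Finset (Tm n)} (hup : ∀ b ∈ 𝒯, ∀ b', b ≤ b' → b' ∈ 𝒯)
    (hy : ∀ b ∈ 𝒯, ∃ y : Fin n → Fin k, PosSat y b)
    (hcl : Cl p (κ ^ G) (n + k * (2 * t + 1)) 𝒯 𝒜) : (minT 𝒜).card ≤ κ ^ k := by
  classical
  by_contra hcon
  rw [not_le] at hcon
  set ℬ := minT 𝒜 with hℬ
  have hℬ𝒯 : ∀ b ∈ ℬ, b ∈ 𝒯 := fun b hb => hcl.1 (mem_minT.1 hb).1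
  let up : Tm n → Finset (Tm n) := fun b₀ => ℬ.filter fun b => b ≤ b₀
  let φ : Tm n → ℕ := fun b₀ => (up b₀).card * κ ^ rk p b₀
  obtain ⟨b₀, hb₀, hmax⟩ := (allT n k).exists_max_image φ ⟨⊤, top_mem_allT n k⟩
  have htop : φ ⊤ = ℬ.card := by
    have : up ⊤ = ℬ := by
      apply Finset.filter_true_of_mem
      intro b _
      exact le_top
    simp only [φ, this, rk_top, pow_zero, mul_one]
  have h2 : κ ^ k < φ b₀ := by
    calc κ ^ k < ℬ.card := hcon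
      _ = φ ⊤ := htop.symm
      _ ≤ φ b₀ := hmax _ (top_mem_allT n k)
  have hupne : (up b₀).Nonempty := by
    rw [← Finset.card_pos]
    by_contra h
    have h0 : (up b₀).card = 0 := by omega
    simp only [φ, h0, zero_mul] at h2
    omega
  have hrk : rk p b₀ ≤ k := by
    obtain ⟨b, hb⟩ := hupne
    obtain ⟨y, hyb⟩ := hy b (hℬ𝒯 b (mem_filter.1 hb).1)
    exact rk_le (hyb.mono (mem_filter.1 hb).2)
  have hcard : 1 < (up b₀).card := by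
    by_contra h
    have h3 : φ b₀ ≤ κ ^ k := by
      calc φ b₀ = (up b₀).card * κ ^ rk p b₀ := rfl
        _ ≤ 1 * κ ^ rk p b₀ := Nat.mul_le_mul_right _ (by omega)
        _ ≤ κ ^ k := by
            rw [one_mul]
            exact Nat.pow_le_pow_right hκ hrk
    omega
  obtain ⟨b, hb, hbne⟩ := Finset.exists_mem_ne hcard b₀
  have hbℬ := (mem_filter.1 hb).1
  have hble := (mem_filter.1 hb).2
  have hb₀𝒯 : b₀ ∈ 𝒯 := hup b (hℬ𝒯 b hbℬ) b₀ hble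
  have hb₀𝒜 : b₀ ∈ 𝒜 := by
    apply hcl.2 b₀ hb₀𝒯
    have hych : ∀ b : Tm n, ∃ y : Fin n → Fin k, b ∈ 𝒯 → PosSat y b := by
      intro b
      by_cases hb : b ∈ 𝒯
      · obtain ⟨y, h⟩ := hy b hb
        exact ⟨y, fun _ => h⟩
      · obtain ⟨y, _⟩ := hy b₀ hb₀𝒯
        exact ⟨y, fun h => absurd h hb⟩
    choose y hych using hych
    refine hit hG h1 (up b₀) hupne (fun b => Vs p b) y ?_ (Vs p b₀) ?_ hκ ?_ (newF p 𝒜 b₀) ?_
    · intro b hb w hw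
      exact exists_comp (hych b (hℬ𝒯 b (mem_filter.1 hb).1)) hw
    · intro b hb
      exact Vs_anti (mem_filter.1 hb).2
    · intro w hw
      set b₁ : Tm n := b₀ ⊓ kerT w with hb₁
      have hsub : ((up b₀).filter fun b => w ∈ Vs p b) ⊆ up b₁ := by
        intro c hc
        rw [mem_filter] at hc
        have hc' := mem_filter.1 hc.1
        exact mem_filter.2 ⟨hc'.1, le_inf hc'.2 (le_kerT hc.2)⟩
      rcases (up b₁).eq_empty_or_nonempty with he | ⟨c, hc⟩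
      · rw [he, Finset.subset_empty] at hsub
        rw [hsub]
        simp
      · have hb₁T : b₁ ∈ allT n k := by
          obtain ⟨y, hyc⟩ := hy c (hℬ𝒯 c (mem_filter.1 hc).1)
          exact mem_allT (hyc.mono (mem_filter.1 hc).2)
        have h4 : φ b₁ ≤ φ b₀ := hmax _ hb₁T
        have h5 : rk p b₀ < rk p b₁ := rk_lt hw
        have h6 : (up b₁).card * κ * κ ^ rk p b₀ ≤ (up b₀).card * κ ^ rk p b₀ := by
          calc (up b₁).card * κ * κ ^ rk p b₀ = (up b₁).card * κ ^ (rk p b₀ + 1) := by ring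
            _ ≤ (up b₁).card * κ ^ rk p b₁ :=
                Nat.mul_le_mul_left _ (Nat.pow_le_pow_right hκ h5)
            _ ≤ _ := h4
        have h7 := Nat.le_of_mul_le_mul_right h6 (Nat.pow_pos hκ)
        exact (Nat.mul_le_mul_right κ (card_le_card hsub)).trans h7
    · intro f hf
      rw [mem_newF] at hf
      refine ⟨hf.1, fun b hb => ?_⟩
      have hb𝒜 : b ∈ 𝒜 := (mem_minT.1 (mem_filter.1 hb).1).1
      have := hf.2 b hb𝒜
      unfold NegSat at this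
      push Not at this
      exact this
  exact hbne ((mem_minT.1 hbℬ).2 b₀ hb₀𝒜 hble).symm

/-- Closures. -/
theorem exists_closure {p n K e : ℕ} [NeZero p] (𝒯 : Finset (Tm n)) :
    ∀ (j : ℕ) (𝒜 : Finset (Tm n)), 𝒜 ⊆ 𝒯 → 𝒯.card - 𝒜.card = j →
      ∃ 𝒜', 𝒜 ⊆ 𝒜' ∧ Cl p K e 𝒯 𝒜' ∧
        ∃ F : Finset (Fin n → ZMod p), K * F.card ≤ j * p ^ e ∧
          ∀ f, (∃ b ∈ 𝒜', NegSat f b) → f ∈ F ∨ ∃ b ∈ 𝒜, NegSat f b := by
  classical
  intro j
  induction j with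
  | zero =>
    intro 𝒜 h𝒜 hj
    have h𝒜𝒯 : 𝒜 = 𝒯 := Finset.eq_of_subset_of_card_le h𝒜 (by omega)
    refine ⟨𝒜, subset_rfl, ⟨h𝒜, fun b hb _ => by rw [h𝒜𝒯]; exact hb⟩, ∅, by simp, ?_⟩
    intro f hf
    exact Or.inr hf
  | succ j ih =>
    intro 𝒜 h𝒜 hj
    by_cases hc : Cl p K e 𝒯 𝒜
    · exact ⟨𝒜, subset_rfl, hc, ∅, by simp, fun f hf => Or.inr hf⟩
    · have hc' : ∃ b ∈ 𝒯, K * (newF p 𝒜 b).card ≤ p ^ e ∧ b ∉ 𝒜 := by
        by_contra h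
        push Not at h
        exact hc ⟨h𝒜, h⟩
      obtain ⟨b, hb𝒯, hbK, hb𝒜⟩ := hc'
      have h2 : insert b 𝒜 ⊆ 𝒯 := insert_subset hb𝒯 h𝒜
      have h3 : (insert b 𝒜).card = 𝒜.card + 1 := card_insert_of_notMem hb𝒜
      obtain ⟨𝒜', hsub, hcl, F, hF, hFf⟩ := ih (insert b 𝒜) h2 (by omega)
      refine ⟨𝒜', (subset_insert b 𝒜).trans hsub, hcl, F ∪ newF p 𝒜 b, ?_, ?_⟩
      · calc K * (F ∪ newF p 𝒜 b).card ≤ K * (F.card + (newF p 𝒜 b).card) :=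
              Nat.mul_le_mul_left _ (card_union_le _ _)
          _ = K * F.card + K * (newF p 𝒜 b).card := by ring
          _ ≤ j * p ^ e + p ^ e := Nat.add_le_add hF hbK
          _ = (j + 1) * p ^ e := by ring
      · intro f hf
        rcases hFf f hf with h | ⟨c, hc, hfc⟩
        · exact Or.inl (mem_union_left _ h)
        · by_cases h𝒜f : ∃ b ∈ 𝒜, NegSat f b
          · exact Or.inr h𝒜f
          · rcases mem_insert.1 hc with rfl | hc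
            · refine Or.inl (mem_union_right _ (mem_newF.2 ⟨hfc, ?_⟩))
              intro b' hb' hfb'
              exact h𝒜f ⟨b', hb', hfb'⟩
            · exact absurd ⟨c, hc, hfc⟩ h𝒜f

end SetCoverMono
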