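import Mathlib

/-!
# Monotone circuits for Set Cover: definitions

An instance consists of `m` subsets of `Fin n`, given by an `m × n` incidence matrix. A monotone
circuit has AND gates of fan-in two, OR gates of arbitrary fan-in and constants; its inputs are the
entries of the matrix.
-/

open Finset

namespace SetCoverMono

/-- A gate which may refer to the gates with numbers `< i`. -/
inductive Gate (ι : Type) (i : ℕ) : Type
  | input (v : ι)
  | const (b : Bool)
  | and (a b : Fin i)
  | or (S : Finset (Fin i))

/-- Is the gate an AND gate? -/
def Gate.isAnd {ι : Type} {i : ℕ} : Gate ι i → Bool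
  | .and _ _ => true
  | _ => false

/-- A monotone circuit: gate number `i` refers only to gates with smaller numbers. A circuit with
`s` gates is given by the gates with numbers `< s`; the other ones are irrelevant. -/
abbrev Circuit (ι : Type) := (i : ℕ) → Gate ι i

/-- The value of gate number `i` on the input `x`. -/
def Circuit.val {ι : Type} (C : Circuit ι) (x : ι → Prop) (i : ℕ) : Prop :=
  match C i with
  | .input v => x v
  | .const b => b = true
  | .and a b => C.val x a ∧ C.val x b
  | .or S => ∃ a ∈ S, C.val x a
termination_by i
decreasing_by all_goals exact Fin.isLt _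

/-- Number of AND gates among the gates with numbers `< s`. -/
def Circuit.numAnd {ι : Type} (C : Circuit ι) (s : ℕ) : ℕ :=
  ((range s).filter fun i => (C i).isAnd = true).card

/-- At most `k` of the `m` sets cover `Fin n`; `a i v` says that the set number `i` contains
`v`. -/
def HasCover {m n : ℕ} (k : ℕ) (a : Fin m → Fin n → Prop) : Prop :=
  ∃ I : Finset (Fin m), I.card ≤ k ∧ ∀ v, ∃ i ∈ I, a i v

/-- Some monotone circuit with at most `t` AND gates (and any number of OR gates) decides, given
`m` subsets of `Fin n`, whether at most `k` of them cover `Fin n`. The inputs of the circuit are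
the `m * n` entries of the incidence matrix. -/
def HasMonotoneCircuit (m n k t : ℕ) : Prop :=
  ∃ (C : Circuit (Fin m × Fin n)) (s : ℕ), C.numAnd s ≤ t ∧ ∃ o < s,
    ∀ a : Fin m → Fin n → Prop, C.val (fun p => a p.1 p.2) o ↔ HasCover k a

end SetCoverMono
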