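import Pool.Agent.Lib.MP_8fffab_lc_MC.Core
import Pool.Agent.Lib.MP_8fffab_lc_MC.Num

/-!
# Monotone circuits for Set Cover: fixed number of sets
-/

open Finset

namespace SetCoverMono

/-- For fixed `k ≥ 2`. -/
theorem fixed_k {k : ℕ} (hk : 2 ≤ k) {η : ℝ} (hη : 0 < η) : ∃ n₀ : ℕ, ∀ n ≥ n₀, ∀ t : ℕ,
    HasMonotoneCircuit (n.choose (n / k)) n k t → (2 : ℝ) ^ ((1 - η) * n) ≤ t := by
  obtain ⟨h₀, hh₀⟩ := core hk (half_pos hη)
  obtain ⟨n₁, hn₁⟩ : ∃ n₁ : ℕ, k / (η / 2) ≤ n₁ := exists_nat_ge _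
  refine ⟨n₁ + k * h₀, fun n hn t hC => ?_⟩
  have hk0 : 0 < k := by omega
  have h1 : h₀ ≤ n / k := by
    rw [Nat.le_div_iff_mul_le hk0]
    calc h₀ * k = k * h₀ := by ring
      _ ≤ n := by omega
  refine le_trans ?_ (hh₀ (n / k) h1 n (Nat.mul_div_le n k) t hC)
  apply Real.rpow_le_rpow_of_exponent_le (by norm_num)
  have h2 : (n : ℝ) ≤ ((k * (n / k) : ℕ) : ℝ) + k := by
    have h3 : n ≤ k * (n / k) + k := by
      have := Nat.lt_mul_div_succ n hk0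
      have h4 : k * (n / k + 1) = k * (n / k) + k := by ring
      omega
    exact_mod_cast h3
  have h5 : (k : ℝ) ≤ η / 2 * n := by
    rw [div_le_iff₀ (half_pos hη)] at hn₁
    have h6 : (n₁ : ℝ) ≤ n := by
      have : n₁ ≤ n := by omega
      exact_mod_cast this
    nlinarith
  have h7 : ((k * (n / k) : ℕ) : ℝ) ≤ n := by exact_mod_cast Nat.mul_div_le n k
  by_cases h8 : η / 2 ≤ 1
  · nlinarith
  · have h9 : (0 : ℝ) ≤ ((k * (n / k) : ℕ) : ℝ) := Nat.cast_nonneg _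
    nlinarith

/-- The Set Cover Conjecture for monotone circuits. -/
theorem base_two (b : ℝ) (hb0 : 0 ≤ b) (hb : b < 2) (c : ℕ) : ∃ k₀ : ℕ, ∀ k ≥ k₀,
    ∃ n₀ : ℕ, ∀ n ≥ n₀, ∀ t : ℕ, HasMonotoneCircuit (n.choose (n / k)) n k t →
      b ^ n * ((n.choose (n / k) : ℝ) * n) ^ c ≤ t := by
  obtain ⟨η, hη, k₀, hk₀, H⟩ := num_bound b hb hb0 c
  refine ⟨k₀, fun k hk => ?_⟩
  obtain ⟨n₁, hn₁⟩ := H k hk
  obtain ⟨h₀, hh₀⟩ := core (show 2 ≤ k by omega) hη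
  refine ⟨n₁ + k * h₀, fun n hn t ht => ?_⟩
  have hkpos : 0 < k := by omega
  have h3 : h₀ ≤ n / k := by
    rw [Nat.le_div_iff_mul_le hkpos, mul_comm]
    omega
  refine (hn₁ n (by omega)).trans ?_
  have h4 := hh₀ (n / k) h3 n (Nat.mul_div_le n k) t ht
  push_cast at h4
  exact h4

end SetCoverMono
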