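import Pool.Agent.Lib.MP_8fffab_lc_MC.Defs
import Pool.Agent.Lib.MP_8fffab_lc_MC.Num

/-!
# Set Cover Conjecture for monotone circuits: module N (numerics), final step
-/

set_option autoImplicit false

namespace SetCoverMono

/-- MODULE N. The final form follows from the core estimate. -/
theorem main_of_core
    (core : ∀ {k : ℕ}, 2 ≤ k → ∀ {η : ℝ}, 0 < η → ∃ h₀ : ℕ, ∀ h ≥ h₀, ∀ n, k * h ≤ n →
      ∀ t, HasMonotoneCircuit (n.choose h) n k t → (2 : ℝ) ^ ((1 - η) * (k * h)) ≤ t)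
    (b : ℝ) (hb : b < 2) (c : ℕ) (hb0 : 0 ≤ b) : ∃ k n₀ : ℕ, ∀ n ≥ n₀, ∀ t,
    HasMonotoneCircuit (n.choose (n / k)) n k t →
      b ^ n * ((n.choose (n / k) : ℝ) * n) ^ c ≤ t := by
  obtain ⟨η, hη, k, hk, H⟩ := num_bound b hb hb0 c
  obtain ⟨n₁, hn₁⟩ := H k le_rfl
  obtain ⟨h₀, hh₀⟩ := core hk hη
  refine ⟨k, max n₁ (k * h₀), fun n hn t ht => ?_⟩
  have h1 : n₁ ≤ n := (le_max_left _ _).trans hn
  have h2 : k * h₀ ≤ n := (le_max_right _ _).trans hn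
  have hkpos : 0 < k := by omega
  have h3 : h₀ ≤ n / k := (Nat.le_div_iff_mul_le hkpos).2 (by rwa [mul_comm])
  exact (hn₁ n h1).trans (hh₀ (n / k) h3 n (Nat.mul_div_le n k) t ht)

end SetCoverMono
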