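import Pool.Agent.Lib.MP_8fffab_lc_MC.Count
import Pool.Agent.Lib.MP_8fffab_lc_MC.Circ
import Pool.Agent.Lib.MP_8fffab_lc_h41.PermCount

/-!
# Approximation of an AND gate
-/

open Finset

namespace SetCoverMono

/-- The allowed terms: satisfied by some balanced colouring `y₀ ∘ π`, and of size at most
`n / 2`. -/
noncomputable def terms {n k : ℕ} (y₀ : Fin n → Fin k) : Finset (Tm n) := by
  classical exact (allT n k).filter fun b =>
    (∃ π : Equiv.Perm (Fin n), PosSat (y₀ ∘ π) b) ∧ 2 * (supp b).card ≤ n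

theorem mem_terms {n k : ℕ} {y₀ : Fin n → Fin k} {b : Tm n} : b ∈ terms y₀ ↔
    (∃ π : Equiv.Perm (Fin n), PosSat (y₀ ∘ π) b) ∧ 2 * (supp b).card ≤ n := by
  classical
  unfold terms
  rw [mem_filter]
  constructor
  · exact fun h => h.2
  · intro h
    obtain ⟨π, hπ⟩ := h.1
    exact ⟨mem_allT hπ, h⟩

theorem terms_up {n k : ℕ} {y₀ : Fin n → Fin k} {b b' : Tm n} (hb : b ∈ terms y₀)
    (h : b ≤ b') : b' ∈ terms y₀ := by
  rw [mem_terms] at hb ⊢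
  obtain ⟨⟨π, hπ⟩, hs⟩ := hb
  refine ⟨⟨π, hπ.mono h⟩, ?_⟩
  have := card_le_card (supp_anti h)
  omega

theorem terms_card {n k : ℕ} (y₀ : Fin n → Fin k) : (terms y₀).card ≤ (k + 1) ^ (n + 1) := by
  classical
  unfold terms
  exact (card_filter_le _ _).trans (card_allT n k)

theorem exists_cl {p n k t G κ : ℕ} [Fact p.Prime] (y₀ : Fin n → Fin k)
    {A : Finset (Tm n)} (hA : A ⊆ terms y₀) :
    ∃ A', A ⊆ A' ∧ Cl p (κ ^ G) (n + k * (2 * t + 1)) (terms y₀) A' ∧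
      ∃ F : Finset (Fin n → ZMod p),
        κ ^ G * F.card ≤ (k + 1) ^ (n + 1) * p ^ (n + k * (2 * t + 1)) ∧
        ∀ f, (∃ b ∈ A', NegSat f b) → f ∈ F ∨ ∃ b ∈ A, NegSat f b := by
  obtain ⟨A', h1, h2, F, h3, h4⟩ := exists_closure (p := p) (K := κ ^ G)
    (e := n + k * (2 * t + 1)) (terms y₀) _ A hA rfl
  refine ⟨A', h1, h2, F, h3.trans ?_, h4⟩
  exact Nat.mul_le_mul_right _ ((Nat.sub_le _ _).trans (terms_card y₀))

theorem and_step {p n k t G κ : ℕ} [Fact p.Prime] (hG : G < 2 * t) (h1 : OneDim p k t G)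
    (hκ : 0 < κ) (y₀ : Fin n → Fin k) {A₁ A₂ : Finset (Tm n)} (hA₁ : A₁ ⊆ terms y₀)
    (hA₂ : A₂ ⊆ terms y₀) :
    ∃ A, A ⊆ terms y₀ ∧
      (∃ B : Finset (Equiv.Perm (Fin n)),
        2 ^ n * B.card ≤ κ ^ k * κ ^ k * (3 ^ k * (n + 1) * n.factorial) ∧
        ∀ π : Equiv.Perm (Fin n), (∃ b ∈ A₁, PosSat (y₀ ∘ π) b) →
          (∃ b ∈ A₂, PosSat (y₀ ∘ π) b) → π ∈ B ∨ ∃ b ∈ A, PosSat (y₀ ∘ π) b) ∧
      ∃ F : Finset (Fin n → ZMod p),
        κ ^ G * F.card ≤ 2 * ((k + 1) ^ (n + 1) * p ^ (n + k * (2 * t + 1))) ∧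
        ∀ f, (∃ b ∈ A, NegSat f b) →
          f ∈ F ∨ ((∃ b ∈ A₁, NegSat f b) ∧ ∃ b ∈ A₂, NegSat f b) := by
  classical
  obtain ⟨C₁, hC₁, hcl₁, F₁, hF₁, hF₁'⟩ := exists_cl (p := p) (t := t) (G := G) (κ := κ) y₀ hA₁
  obtain ⟨C₂, hC₂, hcl₂, F₂, hF₂, hF₂'⟩ := exists_cl (p := p) (t := t) (G := G) (κ := κ) y₀ hA₂
  have hm : ∀ {C}, Cl p (κ ^ G) (n + k * (2 * t + 1)) (terms y₀) C →
      (minT C).card ≤ κ ^ k := by
    intro C hC
    refine min_card hG h1 hκ (fun b hb b' h => terms_up hb h) (fun b hb => ?_) hC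
    obtain ⟨⟨π, hπ⟩, _⟩ := mem_terms.1 hb
    exact ⟨_, hπ⟩
  let pairs := minT C₁ ×ˢ minT C₂
  let A : Finset (Tm n) := (pairs.image fun x => x.1 ⊓ x.2).filter fun b => b ∈ terms y₀
  have hA : A ⊆ terms y₀ := fun b hb => (mem_filter.1 hb).2
  let bad : Tm n × Tm n → Finset (Equiv.Perm (Fin n)) := fun x =>
    if x.1 ⊓ x.2 ∈ terms y₀ then ∅ else
      univ.filter fun π : Equiv.Perm (Fin n) => PosSat (y₀ ∘ π) (x.1 ⊓ x.2)
  refine ⟨A, hA, ⟨pairs.biUnion bad, ?_, ?_⟩, F₁ ∪ F₂, ?_, ?_⟩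
  · have hbad : ∀ x ∈ pairs, 2 ^ n * (bad x).card ≤ 3 ^ k * (n + 1) * n.factorial := by
      intro x hx
      simp only [bad]
      split_ifs with hx'
      · simp
      have hx1 : x.1 ∈ terms y₀ := hcl₁.1 (mem_minT.1 (mem_product.1 hx).1).1
      have hx2 : x.2 ∈ terms y₀ := hcl₂.1 (mem_minT.1 (mem_product.1 hx).2).1
      rcases (univ.filter fun π : Equiv.Perm (Fin n) =>
        PosSat (y₀ ∘ π) (x.1 ⊓ x.2)).eq_empty_or_nonempty with he | ⟨π₀, hπ₀⟩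
      · rw [he]
        simp
      have hbig : n ≤ 2 * (supp x.1 ∪ (supp x.2 \ supp x.1)).card := by
        rw [Finset.union_sdiff_self_eq_union, ← supp_inf]
        by_contra hcon
        apply hx'
        rw [mem_terms]
        exact ⟨⟨π₀, (mem_filter.1 hπ₀).2⟩, by omega⟩
      have hpc := perm_count y₀ (supp x.1) (supp x.2 \ supp x.1) disjoint_sdiff
        (mem_terms.1 hx1).2
        ((Nat.mul_le_mul_left 2 (card_le_card sdiff_subset)).trans (mem_terms.1 hx2).2) hbig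
      refine le_trans ?_ hpc
      rw [mul_comm]
      apply Nat.mul_le_mul_right
      apply card_le_card
      intro π hπ
      rw [mem_filter] at hπ ⊢
      refine ⟨mem_univ _, fun u v huv => ?_⟩
      have h3 : x.1.r (some u) (some v) := (hπ.2 u v huv).1
      have h4 : x.2.r (some u) (some v) := (hπ.2 u v huv).2
      have h5 : u ∈ supp x.1 ↔ v ∈ supp x.1 := by
        rw [mem_supp, mem_supp]
        exact not_congr ⟨fun h => x.1.trans (x.1.symm h3) h, fun h => x.1.trans h3 h⟩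
      have h6 : u ∈ supp x.2 ↔ v ∈ supp x.2 := by
        rw [mem_supp, mem_supp]
        exact not_congr ⟨fun h => x.2.trans (x.2.symm h4) h, fun h => x.2.trans h4 h⟩
      refine ⟨h5, ?_⟩
      rw [mem_sdiff, mem_sdiff, h5, h6]
    calc 2 ^ n * (pairs.biUnion bad).card ≤ 2 ^ n * ∑ x ∈ pairs, (bad x).card :=
          Nat.mul_le_mul_left _ card_biUnion_le
      _ = ∑ x ∈ pairs, 2 ^ n * (bad x).card := by rw [Finset.mul_sum]
      _ ≤ ∑ x ∈ pairs, 3 ^ k * (n + 1) * n.factorial := Finset.sum_le_sum hbad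
      _ = pairs.card * (3 ^ k * (n + 1) * n.factorial) := by
          rw [Finset.sum_const, smul_eq_mul]
      _ ≤ _ := by
          apply Nat.mul_le_mul_right
          rw [card_product]
          exact Nat.mul_le_mul (hm hcl₁) (hm hcl₂)
  · rintro π ⟨b₁, hb₁, hπ₁⟩ ⟨b₂, hb₂, hπ₂⟩
    obtain ⟨c₁, hc₁, hle₁⟩ := exists_minT (hC₁ hb₁)
    obtain ⟨c₂, hc₂, hle₂⟩ := exists_minT (hC₂ hb₂)
    have hπ : PosSat (y₀ ∘ π) (c₁ ⊓ c₂) := (hπ₁.mono hle₁).inf (hπ₂.mono hle₂)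
    have hp : (c₁, c₂) ∈ pairs := mem_product.2 ⟨hc₁, hc₂⟩
    by_cases hT : c₁ ⊓ c₂ ∈ terms y₀
    · refine Or.inr ⟨c₁ ⊓ c₂, mem_filter.2 ⟨mem_image.2 ⟨(c₁, c₂), hp, rfl⟩, hT⟩, hπ⟩
    · refine Or.inl (mem_biUnion.2 ⟨(c₁, c₂), hp, ?_⟩)
      simp only [bad]
      rw [if_neg hT]
      exact mem_filter.2 ⟨mem_univ _, hπ⟩
  · calc κ ^ G * (F₁ ∪ F₂).card ≤ κ ^ G * (F₁.card + F₂.card) :=
          Nat.mul_le_mul_left _ (card_union_le _ _)
      _ = κ ^ G * F₁.card + κ ^ G * F₂.card := by ring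
      _ ≤ _ := by
          rw [two_mul]
          exact Nat.add_le_add hF₁ hF₂
  · rintro f ⟨b, hb, hf⟩
    obtain ⟨x, hx, rfl⟩ := mem_image.1 (mem_filter.1 hb).1
    have hx1 := (mem_minT.1 (mem_product.1 hx).1).1
    have hx2 := (mem_minT.1 (mem_product.1 hx).2).1
    rcases hF₁' f ⟨x.1, hx1, hf.mono inf_le_left⟩ with h | h
    · exact Or.inl (mem_union_left _ h)
    rcases hF₂' f ⟨x.2, hx2, hf.mono inf_le_right⟩ with h' | h'
    · exact Or.inl (mem_union_right _ h')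
    exact Or.inr ⟨h, h'⟩

end SetCoverMono
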