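import Mathlib

/-!
# Terms: partial partitions of `Fin n`, as equivalence relations on `Option (Fin n)`
-/

open Finset

namespace SetCoverMono

variable {n k p : ℕ}

/-- Terms: the class of `none` is the outside, the other classes are the sets of the term. -/
abbrev Tm (n : ℕ) := Setoid (Option (Fin n))

/-- The colouring `y` is compatible with `b`. -/
def PosSat (y : Fin n → Fin k) (b : Tm n) : Prop := ∀ u v, y u = y v → b.r (some u) (some v)

/-- Points which are not outside. -/
noncomputable def supp (b : Tm n) : Finset (Fin n) := by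
  classical exact univ.filter fun v => ¬ b.r (some v) none

theorem mem_supp {b : Tm n} {v : Fin n} : v ∈ supp b ↔ ¬ b.r (some v) none := by
  classical
  simp [supp]

/-- Vectors which are constant on the classes and zero outside. -/
def Vs (p : ℕ) (b : Tm n) : Submodule (ZMod p) (Fin n → ZMod p) where
  carrier := {w | (∀ u v, b.r (some u) (some v) → w u = w v) ∧ ∀ u, b.r (some u) none → w u = 0}
  add_mem' := by
    rintro x y ⟨h1, h2⟩ ⟨h3, h4⟩
    exact ⟨fun u v h => by simp [h1 u v h, h3 u v h], fun u h => by simp [h2 u h, h4 u h]⟩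
  zero_mem' := ⟨fun _ _ _ => rfl, fun _ _ => rfl⟩
  smul_mem' := by
    rintro c x ⟨h1, h2⟩
    exact ⟨fun u v h => by simp [h1 u v h], fun u h => by simp [h2 u h]⟩

theorem mem_Vs {b : Tm n} {w : Fin n → ZMod p} : w ∈ Vs p b ↔
    (∀ u v, b.r (some u) (some v) → w u = w v) ∧ ∀ u, b.r (some u) none → w u = 0 := Iff.rfl

/-- `f` satisfies `b`: the sum of `f` over every set of `b` is zero. -/
def NegSat (f : Fin n → ZMod p) (b : Tm n) : Prop := ∀ w ∈ Vs p b, f ⬝ᵥ w = 0

theorem le_def' {b b' : Tm n} : b ≤ b' ↔ ∀ x y, b.r x y → b'.r x y := Iff.rfl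

theorem Vs_anti {b b' : Tm n} (h : b ≤ b') : Vs p b' ≤ Vs p b := by
  rintro w ⟨h1, h2⟩
  exact ⟨fun u v huv => h1 u v (h huv), fun u hu => h2 u (h hu)⟩

theorem NegSat.mono {b b' : Tm n} (h : b ≤ b') {f : Fin n → ZMod p} (hf : NegSat f b) :
    NegSat f b' := fun w hw => hf w (Vs_anti h hw)

theorem PosSat.mono {b b' : Tm n} (h : b ≤ b') {y : Fin n → Fin k} (hy : PosSat y b) :
    PosSat y b' := fun u v huv => h (hy u v huv)

theorem PosSat.inf {b b' : Tm n} {y : Fin n → Fin k} (hy : PosSat y b) (hy' : PosSat y b') :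
    PosSat y (b ⊓ b') := fun u v huv => ⟨hy u v huv, hy' u v huv⟩

theorem supp_anti {b b' : Tm n} (h : b ≤ b') : supp b' ⊆ supp b := by
  intro v hv
  rw [mem_supp] at hv ⊢
  exact fun h' => hv (h h')

theorem supp_inf {b b' : Tm n} : supp (b ⊓ b') = supp b ∪ supp b' := by
  classical
  ext v
  simp only [mem_union, mem_supp]
  change ¬ (b.r (some v) none ∧ b'.r (some v) none) ↔ _
  tauto

/-- The kernel of a vector. -/
def kerT (w : Fin n → ZMod p) : Tm n :=
  Setoid.ker fun x : Option (Fin n) => match x with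
    | none => 0
    | some v => w v

theorem le_kerT {b : Tm n} {w : Fin n → ZMod p} (hw : w ∈ Vs p b) : b ≤ kerT w := by
  rintro (_ | u) (_ | v) h
  · rfl
  · exact (hw.2 v (b.symm h)).symm
  · exact hw.2 u h
  · exact hw.1 u v h

theorem mem_kerT (w : Fin n → ZMod p) : w ∈ Vs p (kerT w) :=
  ⟨fun _ _ h => h, fun _ h => h⟩

/-- Dimension. -/
noncomputable def rk (p : ℕ) (b : Tm n) : ℕ := Module.finrank (ZMod p) (Vs p b)

theorem rk_lt [Fact p.Prime] {b : Tm n} {w : Fin n → ZMod p} (hw : w ∉ Vs p b) :
    rk p b < rk p (b ⊓ kerT w) := by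
  apply Submodule.finrank_lt_finrank_of_lt
  refine lt_of_le_of_ne (Vs_anti inf_le_left) fun h => hw ?_
  rw [h]
  exact Vs_anti inf_le_right (mem_kerT w)

theorem rk_top [Fact p.Prime] : rk p (⊤ : Tm n) = 0 := by
  have : Vs p (⊤ : Tm n) = ⊥ := by
    rw [eq_bot_iff]
    rintro w ⟨_, h2⟩
    rw [Submodule.mem_bot]
    funext u
    exact h2 u trivial
  unfold rk
  rw [this]
  simp

theorem exists_comp {b : Tm n} {y : Fin n → Fin k} (hy : PosSat y b) {w : Fin n → ZMod p}
    (hw : w ∈ Vs p b) : ∃ c : Fin k → ZMod p, w = c ∘ y := by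
  classical
  have hf : Function.FactorsThrough w y := fun u v h => hw.1 u v (hy u v h)
  refine ⟨Function.extend y w 0, ?_⟩
  funext u
  exact (hf.extend_apply 0 u).symm

theorem rk_le [Fact p.Prime] {b : Tm n} {y : Fin n → Fin k} (hy : PosSat y b) : rk p b ≤ k := by
  have h : Vs p b ≤ LinearMap.range (LinearMap.funLeft (ZMod p) (ZMod p) y) := by
    intro w hw
    obtain ⟨c, rfl⟩ := exists_comp hy hw
    exact ⟨c, rfl⟩
  calc rk p b ≤ Module.finrank (ZMod p) (LinearMap.range (LinearMap.funLeft (ZMod p) (ZMod p) y)) :=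
        Submodule.finrank_mono h
    _ ≤ Module.finrank (ZMod p) (Fin k → ZMod p) := LinearMap.finrank_range_le _
    _ = k := by simp

/-- The relations with at most `k + 1` classes. -/
noncomputable def allT (n k : ℕ) : Finset (Tm n) := by
  classical exact univ.image fun l : Option (Fin n) → Option (Fin k) => Setoid.ker l

theorem card_allT (n k : ℕ) : (allT n k).card ≤ (k + 1) ^ (n + 1) := by
  classical
  unfold allT
  refine card_image_le.trans ?_
  simp

theorem mem_allT {b : Tm n} {y : Fin n → Fin k} (hy : PosSat y b) : b ∈ allT n k := by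
  classical
  -- a surjection from `Option (Fin k)` to the quotient
  let h : Option (Fin k) → Quotient b := fun j => match j with
    | none => Quotient.mk b none
    | some j => if hj : ∃ v, y v = j then Quotient.mk b (some hj.choose) else Quotient.mk b none
  have hs : Function.Surjective h := by
    intro q
    obtain ⟨x, rfl⟩ := Quotient.exists_rep q
    rcases x with _ | v
    · exact ⟨none, rfl⟩
    · refine ⟨some (y v), ?_⟩
      have hj : ∃ v', y v' = y v := ⟨v, rfl⟩
      change (if hj : ∃ v', y v' = y v then Quotient.mk b (some hj.choose)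
        else Quotient.mk b none) = _
      rw [dif_pos hj]
      exact Quotient.sound (hy _ _ hj.choose_spec)
  let g : Quotient b → Option (Fin k) := Function.surjInv hs
  have hg : Function.Injective g := Function.injective_surjInv hs
  unfold allT
  rw [mem_image]
  refine ⟨fun x => g (Quotient.mk b x), mem_univ _, ?_⟩
  ext x z
  change g (Quotient.mk b x) = g (Quotient.mk b z) ↔ _
  rw [hg.eq_iff]
  exact Quotient.eq

theorem top_mem_allT (n k : ℕ) : (⊤ : Tm n) ∈ allT n k := by
  classical
  unfold allT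
  rw [mem_image]
  refine ⟨fun _ => none, mem_univ _, ?_⟩
  ext x z
  exact ⟨fun _ => trivial, fun _ => rfl⟩

end SetCoverMono
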